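import Mathlib

set_option autoImplicit false

open Finset

namespace Pool.Agent.Results.MP_2fe47b_co.Disproof

/-- The energy E_A(θ) = 1/2 times the sum over all i, j of A i j * (1 - cos (θ i - θ j)) of a
configuration θ in the torus (each coordinate is a real number modulo 2π). -/
noncomputable def energy {n : ℕ} (A : Matrix (Fin n) (Fin n) ℝ) (θ : Fin n → Real.Angle) : ℝ :=
  (1 / 2) * ∑ i, ∑ j, A i j * (1 - (θ i - θ j).cos)

/-- The matrix A is globally synchronizing: the local minima of its energy on the torus are exactly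
the constant configurations. -/
def GloballySynchronizing {n : ℕ} (A : Matrix (Fin n) (Fin n) ℝ) : Prop :=
  ∀ θ : Fin n → Real.Angle, IsLocalMin (energy A) θ ↔ ∃ c : Real.Angle, ∀ i, θ i = c


/-- lifted energy -/
noncomputable def E {n : ℕ} (a : Fin n → Fin n → ℝ) (θ : Fin n → ℝ) : ℝ :=
  (1 / 2) * ∑ i, ∑ j, a i j * (1 - Real.cos (θ i - θ j))

lemma line_min {n : ℕ} (a : Fin n → Fin n → ℝ) (θ v : Fin n → ℝ)
    (h : IsLocalMin (E a) θ) : IsLocalMin (fun s : ℝ => E a (θ + s • v)) 0 := by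
  have hc : ContinuousAt (fun s : ℝ => θ + s • v) 0 := by fun_prop
  have h' : ∀ᶠ x in nhds ((fun s : ℝ => θ + s • v) 0), E a ((fun s : ℝ => θ + s • v) 0) ≤ E a x := by
    have : (fun s : ℝ => θ + s • v) 0 = θ := by simp
    rw [this]; exact h
  exact hc.eventually h'

lemma first_order {n : ℕ} (a : Fin n → Fin n → ℝ) (θ v : Fin n → ℝ)
    (h : IsLocalMin (E a) θ) :
    ∑ i, ∑ j, a i j * (Real.sin (θ i - θ j) * (v i - v j)) = 0 := by
  have h1 := line_min a θ v h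
  have h2 : HasDerivAt (fun s : ℝ => E a (θ + s • v))
      ((1 / 2) * ∑ i, ∑ j, a i j * (Real.sin (θ i - θ j) * (v i - v j))) 0 := by
    unfold E
    apply HasDerivAt.const_mul
    apply HasDerivAt.fun_sum
    intro i _
    apply HasDerivAt.fun_sum
    intro j _
    apply HasDerivAt.const_mul
    have h3 : HasDerivAt (fun s : ℝ => (θ + s • v) i - (θ + s • v) j) (v i - v j) 0 := by
      have h4 : HasDerivAt (fun s : ℝ => (θ i + s * v i) - (θ j + s * v j)) (v i - v j) 0 := by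
        have ha : HasDerivAt (fun s : ℝ => θ i + s * v i) (v i) 0 := by
          simpa using ((hasDerivAt_id (0:ℝ)).mul_const (v i)).const_add (θ i)
        have hb : HasDerivAt (fun s : ℝ => θ j + s * v j) (v j) 0 := by
          simpa using ((hasDerivAt_id (0:ℝ)).mul_const (v j)).const_add (θ j)
        exact ha.sub hb
      simpa using h4
    have h5 := (h3.cos).const_sub 1
    simpa using h5
  have h6 := h1.hasDerivAt_eq_zero h2
  linarith

lemma second_order {n : ℕ} (a : Fin n → Fin n → ℝ) (θ v : Fin n → ℝ)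
    (h : IsLocalMin (E a) θ) :
    0 ≤ ∑ i, ∑ j, a i j * (Real.cos (θ i - θ j) * (v i - v j) ^ 2) := by
  have h1 := line_min a θ v h
  have h2 : ∀ᶠ s in nhds (0:ℝ), E a (θ + (0:ℝ) • v) ≤ E a (θ + s • v) := h1
  have h3 : ∀ᶠ s in nhds (0:ℝ), E a (θ + (0:ℝ) • v) ≤ E a (θ + (-s) • v) := by
    have : Filter.Tendsto (fun s : ℝ => -s) (nhds 0) (nhds 0) := by
      simpa using (continuous_neg.tendsto (0:ℝ))
    exact this.eventually h2
  have h4 : ∀ s : ℝ, E a (θ + s • v) + E a (θ + (-s) • v) - 2 * E a (θ + (0:ℝ) • v)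
      = ∑ i, ∑ j, a i j * (Real.cos (θ i - θ j) * (2 * Real.sin (s * ((v i - v j) / 2)) ^ 2)) := by
    intro s
    unfold E
    rw [← mul_add, ← Finset.sum_add_distrib, Finset.mul_sum, Finset.mul_sum, Finset.mul_sum,
      ← Finset.sum_sub_distrib]
    apply Finset.sum_congr rfl
    intro i _
    rw [← Finset.sum_add_distrib, Finset.mul_sum, Finset.mul_sum, Finset.mul_sum,
      ← Finset.sum_sub_distrib]
    apply Finset.sum_congr rfl
    intro j _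
    have e1 : (θ + s • v) i - (θ + s • v) j = (θ i - θ j) + 2 * (s * ((v i - v j) / 2)) := by
      simp; ring
    have e2 : (θ + (-s) • v) i - (θ + (-s) • v) j = (θ i - θ j) - 2 * (s * ((v i - v j) / 2)) := by
      simp; ring
    have e3 : (θ + (0:ℝ) • v) i - (θ + (0:ℝ) • v) j = (θ i - θ j) := by simp
    rw [e1, e2, e3]
    generalize θ i - θ j = Δ
    rw [Real.cos_add, Real.cos_sub, Real.cos_two_mul, Real.sin_two_mul]
    have := Real.sin_sq_add_cos_sq (s * ((v i - v j) / 2))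
    have e4 : Real.cos (s * ((v i - v j) / 2)) ^ 2 = 1 - Real.sin (s * ((v i - v j) / 2)) ^ 2 := by
      linarith
    rw [e4]
    ring
  have h5 : ∀ᶠ s in nhdsWithin (0:ℝ) {0}ᶜ, 0 ≤ ∑ i, ∑ j, a i j * (Real.cos (θ i - θ j) *
      (2 * (s⁻¹ * Real.sin (s * ((v i - v j) / 2))) ^ 2)) := by
    have h6 := (h2.and h3).filter_mono (nhdsWithin_le_nhds (s := {0}ᶜ))
    filter_upwards [h6, self_mem_nhdsWithin] with s hs hs0
    have h7 := h4 s
    have h8 : 0 ≤ ∑ i, ∑ j, a i j * (Real.cos (θ i - θ j) * (2 * Real.sin (s * ((v i - v j) / 2)) ^ 2)) := by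
      rw [← h7]; linarith [hs.1, hs.2]
    have h9 : ∑ i, ∑ j, a i j * (Real.cos (θ i - θ j) *
      (2 * (s⁻¹ * Real.sin (s * ((v i - v j) / 2))) ^ 2)) = (s⁻¹) ^ 2 * ∑ i, ∑ j, a i j * (Real.cos (θ i - θ j) * (2 * Real.sin (s * ((v i - v j) / 2)) ^ 2)) := by
      rw [Finset.mul_sum]
      apply Finset.sum_congr rfl
      intro i _
      rw [Finset.mul_sum]
      apply Finset.sum_congr rfl
      intro j _
      ring
    rw [h9]
    positivity
  have h10 : Filter.Tendsto (fun s : ℝ => ∑ i, ∑ j, a i j * (Real.cos (θ i - θ j) *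
      (2 * (s⁻¹ * Real.sin (s * ((v i - v j) / 2))) ^ 2))) (nhdsWithin (0:ℝ) {0}ᶜ)
      (nhds (∑ i, ∑ j, a i j * (Real.cos (θ i - θ j) * (2 * ((v i - v j) / 2) ^ 2)))) := by
    apply tendsto_finsetSum
    intro i _
    apply tendsto_finsetSum
    intro j _
    apply Filter.Tendsto.const_mul
    apply Filter.Tendsto.const_mul
    apply Filter.Tendsto.const_mul
    apply Filter.Tendsto.pow
    have h11 : HasDerivAt (fun s : ℝ => Real.sin (s * ((v i - v j) / 2))) ((v i - v j) / 2) 0 := by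
      have := ((hasDerivAt_id (0:ℝ)).mul_const ((v i - v j) / 2)).sin
      simpa using this
    have h12 := h11.tendsto_slope
    simpa [slope_fun_def, slope_def_field, slope, div_eq_inv_mul] using h12
  have h13 := ge_of_tendsto h10 h5
  have h14 : ∑ i, ∑ j, a i j * (Real.cos (θ i - θ j) * (2 * ((v i - v j) / 2) ^ 2)) =
      (1 / 2) * ∑ i, ∑ j, a i j * (Real.cos (θ i - θ j) * (v i - v j) ^ 2) := by
    rw [Finset.mul_sum]
    apply Finset.sum_congr rfl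
    intro i _
    rw [Finset.mul_sum]
    apply Finset.sum_congr rfl
    intro j _
    ring
  rw [h14] at h13
  linarith

lemma anti_sum {n : ℕ} (M : Fin n → Fin n → ℝ) (hM : ∀ i j, M i j = - M j i) (v : Fin n → ℝ) :
    ∑ i, ∑ j, M i j * (v i - v j) = 2 * ∑ i, v i * ∑ j, M i j := by
  have h1 : ∑ i, ∑ j, M i j * (v i - v j) = ∑ i, ∑ j, M i j * v i - ∑ i, ∑ j, M i j * v j := by
    rw [← Finset.sum_sub_distrib]
    apply Finset.sum_congr rfl; intro i _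
    rw [← Finset.sum_sub_distrib]
    apply Finset.sum_congr rfl; intro j _
    ring
  have h2 : ∑ i, ∑ j, M i j * v j = - ∑ i, ∑ j, M i j * v i := by
    rw [Finset.sum_comm, ← Finset.sum_neg_distrib]
    apply Finset.sum_congr rfl; intro i _
    rw [← Finset.sum_neg_distrib]
    apply Finset.sum_congr rfl; intro j _
    rw [hM j i]; ring
  rw [h1, h2]
  have h3 : ∑ i, v i * ∑ j, M i j = ∑ i, ∑ j, M i j * v i := by
    apply Finset.sum_congr rfl; intro i _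
    rw [Finset.mul_sum]
    apply Finset.sum_congr rfl; intro j _
    ring
  rw [h3]; ring

lemma row_zero {n : ℕ} (a : Fin n → Fin n → ℝ) (hs : ∀ i j, a i j = a j i) (θ : Fin n → ℝ)
    (hf : ∀ v : Fin n → ℝ, ∑ i, ∑ j, a i j * (Real.sin (θ i - θ j) * (v i - v j)) = 0) (i : Fin n) :
    ∑ j, a i j * Real.sin (θ i - θ j) = 0 := by
  have h1 := hf (Pi.single i 1)
  have h2 := anti_sum (fun i j => a i j * Real.sin (θ i - θ j)) (by
    intro i j
    show a i j * Real.sin (θ i - θ j) = -(a j i * Real.sin (θ j - θ i))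
    rw [hs i j, ← neg_sub (θ j) (θ i), Real.sin_neg]; ring) (Pi.single i 1)
  have h3 : ∑ k, ∑ l, a k l * Real.sin (θ k - θ l) * ((Pi.single i (1:ℝ) : Fin n → ℝ) k - (Pi.single i (1:ℝ) : Fin n → ℝ) l) = 0 := by
    rw [← h1]
    apply Finset.sum_congr rfl; intro k _
    apply Finset.sum_congr rfl; intro l _
    ring
  rw [h3] at h2
  have h4 : ∑ k, (Pi.single i (1:ℝ) : Fin n → ℝ) k * ∑ j, a k j * Real.sin (θ k - θ j) =
      ∑ j, a i j * Real.sin (θ i - θ j) := by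
    rw [Finset.sum_eq_single i]
    · simp
    · intro b _ hb; simp [Pi.single_eq_of_ne hb]
    · intro h; exact absurd (Finset.mem_univ i) h
  rw [h4] at h2
  linarith

lemma row_pos {n : ℕ} (a : Fin n → Fin n → ℝ) (hs : ∀ i j, a i j = a j i) (hd : ∀ i, a i i = 1)
    (θ : Fin n → ℝ)
    (hf : ∀ v : Fin n → ℝ, 0 ≤ ∑ i, ∑ j, a i j * (Real.cos (θ i - θ j) * (v i - v j) ^ 2)) (i : Fin n) :
    1 ≤ ∑ j, a i j * Real.cos (θ i - θ j) := by
  have h1 := hf (Pi.single i 1)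
  set v : Fin n → ℝ := Pi.single i 1 with hv
  have hvi : v i = 1 := by simp [hv]
  have hvk : ∀ k, k ≠ i → v k = 0 := by intro k hk; simp [hv, Pi.single_eq_of_ne hk]
  have h2 : ∑ k, ∑ l, a k l * (Real.cos (θ k - θ l) * (v k - v l) ^ 2)
      = ∑ k, ∑ l, (a k l * Real.cos (θ k - θ l)) * v k ^ 2 + ∑ k, ∑ l, (a k l * Real.cos (θ k - θ l)) * v l ^ 2
        - 2 * ∑ k, ∑ l, (a k l * Real.cos (θ k - θ l)) * (v k * v l) := by
    rw [Finset.mul_sum, ← Finset.sum_add_distrib, ← Finset.sum_sub_distrib]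
    apply Finset.sum_congr rfl; intro k _
    rw [Finset.mul_sum, ← Finset.sum_add_distrib, ← Finset.sum_sub_distrib]
    apply Finset.sum_congr rfl; intro l _
    ring
  have h3 : ∑ k, ∑ l, (a k l * Real.cos (θ k - θ l)) * v l ^ 2 = ∑ k, ∑ l, (a k l * Real.cos (θ k - θ l)) * v k ^ 2 := by
    rw [Finset.sum_comm]
    apply Finset.sum_congr rfl; intro k _
    apply Finset.sum_congr rfl; intro l _
    rw [hs l k, ← neg_sub (θ k) (θ l), Real.cos_neg]
  have h4 : ∑ k, ∑ l, (a k l * Real.cos (θ k - θ l)) * v k ^ 2 = ∑ j, a i j * Real.cos (θ i - θ j) := by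
    rw [Finset.sum_eq_single i]
    · simp [hvi]
    · intro b _ hb; simp [hvk b hb]
    · intro h; exact absurd (Finset.mem_univ i) h
  have h5 : ∑ k, ∑ l, (a k l * Real.cos (θ k - θ l)) * (v k * v l) = 1 := by
    rw [Finset.sum_eq_single i]
    · rw [Finset.sum_eq_single i]
      · simp [hvi, hd]
      · intro b _ hb; simp [hvk b hb]
      · intro h; exact absurd (Finset.mem_univ i) h
    · intro b _ hb; simp [hvk b hb]
    · intro h; exact absurd (Finset.mem_univ i) h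
  rw [h2, h3, h4, h5] at h1
  linarith

lemma dom_le {X Y c s : ℝ} (h : c ^ 2 + s ^ 2 = 1) : X * c + Y * s ≤ √(X ^ 2 + Y ^ 2) := by
  apply Real.le_sqrt_of_sq_le
  nlinarith [sq_nonneg (X * s - Y * c), h]

lemma common {n : ℕ} (a : Fin n → Fin n → ℝ) (ha : ∀ i j, a i j = 0 ∨ a i j = 1) (κ : ℝ) (hκ : κ < 1 / 2)
    (hdeg : ∀ i, ∑ j, (1 - a i j) ≤ κ * n) (i l : Fin n) : ∃ j, a i j = 1 ∧ a l j = 1 := by
  by_contra hcon
  push Not at hcon
  have hn : (0:ℝ) < n := by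
    have := i.pos
    exact_mod_cast this
  have h1 : ∀ j, 1 ≤ (1 - a i j) + (1 - a l j) := by
    intro j
    rcases ha i j with h | h
    · rcases ha l j with h' | h' <;> rw [h, h'] <;> norm_num
    · rcases ha l j with h' | h'
      · rw [h, h']; norm_num
      · exact absurd h' (hcon j h)
  have h2 : (n:ℝ) ≤ ∑ j, ((1 - a i j) + (1 - a l j)) := by
    calc (n:ℝ) = ∑ _j : Fin n, (1:ℝ) := by simp
      _ ≤ _ := Finset.sum_le_sum (fun j _ => h1 j)
  rw [Finset.sum_add_distrib] at h2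
  have h3 := hdeg i
  have h4 := hdeg l
  nlinarith

theorem part2 {n : ℕ} (a : Fin n → Fin n → ℝ) (ha : ∀ i j, a i j = 0 ∨ a i j = 1)
    (θ : Fin n → ℝ)
    (hf : ∀ v : Fin n → ℝ, ∑ i, ∑ j, a i j * (Real.sin (θ i - θ j) * (v i - v j)) = 0)
    (hrow : ∀ i, ∑ j, a i j * Real.sin (θ i - θ j) = 0)
    (hr : ∀ i, 0 < ∑ j, a i j * Real.cos (θ i - θ j))
    (κ : ℝ) (hκ : κ < 1 / 2) (hdeg : ∀ i, ∑ j, (1 - a i j) ≤ κ * n)
    (hR : κ * n < √((∑ j, Real.cos (θ j)) ^ 2 + (∑ j, Real.sin (θ j)) ^ 2)) :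
    ∀ i j, Real.cos (θ i - θ j) = 1 := by
  set X := ∑ j, Real.cos (θ j) with hX
  set Y := ∑ j, Real.sin (θ j) with hY
  set K := X ^ 2 + Y ^ 2 with hK
  intro i₀ l₀
  have hn : (0:ℝ) < n := by
    have := i₀.pos
    exact_mod_cast this
  have hκ0 : 0 ≤ κ * n := by
    refine le_trans ?_ (hdeg i₀)
    apply Finset.sum_nonneg
    intro j _
    rcases ha i₀ j with h | h <;> rw [h] <;> norm_num
  have hsK : 0 < √K := lt_of_le_of_lt hκ0 hR
  have hKpos : 0 < K := Real.sqrt_pos.mp hsK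
  have hKsq : √K * √K = K := Real.mul_self_sqrt hKpos.le
  -- w
  have hw : ∀ i, 0 < X * Real.cos (θ i) + Y * Real.sin (θ i) := by
    intro i
    have e1 : (∑ j, a i j * Real.cos (θ i - θ j)) * (X * Real.cos (θ i) + Y * Real.sin (θ i))
        = ∑ j, a i j * (X * Real.cos (θ j) + Y * Real.sin (θ j)) := by
      have e2 : ∀ j, a i j * (X * Real.cos (θ j) + Y * Real.sin (θ j)) =
          (a i j * Real.cos (θ i - θ j)) * (X * Real.cos (θ i) + Y * Real.sin (θ i)) +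
          (a i j * Real.sin (θ i - θ j)) * (X * Real.sin (θ i) - Y * Real.cos (θ i)) := by
        intro j
        rw [Real.cos_sub, Real.sin_sub]
        have := Real.sin_sq_add_cos_sq (θ i)
        have e3 : Real.sin (θ i) ^ 2 = 1 - Real.cos (θ i) ^ 2 := by linarith
        linear_combination (- a i j * (X * Real.cos (θ j) + Y * Real.sin (θ j))) * this
      rw [Finset.sum_congr rfl (fun j _ => e2 j), Finset.sum_add_distrib, ← Finset.sum_mul,
        ← Finset.sum_mul, hrow i]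
      ring
    have e4 : ∑ j, a i j * (X * Real.cos (θ j) + Y * Real.sin (θ j)) =
        K - ∑ j, (1 - a i j) * (X * Real.cos (θ j) + Y * Real.sin (θ j)) := by
      have : K = ∑ j, (X * Real.cos (θ j) + Y * Real.sin (θ j)) := by
        rw [Finset.sum_add_distrib, ← Finset.mul_sum, ← Finset.mul_sum, ← hX, ← hY, hK]; ring
      rw [this, ← Finset.sum_sub_distrib]
      apply Finset.sum_congr rfl; intro j _; ring
    have e5 : ∑ j, (1 - a i j) * (X * Real.cos (θ j) + Y * Real.sin (θ j)) ≤ (κ * n) * √K := by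
      calc ∑ j, (1 - a i j) * (X * Real.cos (θ j) + Y * Real.sin (θ j))
          ≤ ∑ j, (1 - a i j) * √K := by
            apply Finset.sum_le_sum; intro j _
            apply mul_le_mul_of_nonneg_left
            · exact dom_le (by rw [add_comm]; exact Real.sin_sq_add_cos_sq (θ j))
            · rcases ha i j with h | h <;> rw [h] <;> norm_num
        _ = (∑ j, (1 - a i j)) * √K := by rw [Finset.sum_mul]
        _ ≤ _ := mul_le_mul_of_nonneg_right (hdeg i) hsK.le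
    have e6 : 0 < (∑ j, a i j * Real.cos (θ i - θ j)) * (X * Real.cos (θ i) + Y * Real.sin (θ i)) := by
      rw [e1, e4]
      nlinarith
    exact (pos_iff_pos_of_mul_pos e6).mp (hr i)
  set w : Fin n → ℝ := fun i => X * Real.cos (θ i) + Y * Real.sin (θ i) with hwdef
  set u : Fin n → ℝ := fun i => X * Real.sin (θ i) - Y * Real.cos (θ i) with hudef
  have hw' : ∀ i, 0 < w i := hw
  have huw : ∀ i j, u i * w j - u j * w i = K * Real.sin (θ i - θ j) := by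
    intro i j
    simp only [hwdef, hudef, hK]
    rw [Real.sin_sub]; ring
  have huw2 : ∀ i j, w i * w j + u i * u j = K * Real.cos (θ i - θ j) := by
    intro i j
    simp only [hwdef, hudef, hK]
    rw [Real.cos_sub]; ring
  have ht : ∀ i j, u i / w i - u j / w j = K * Real.sin (θ i - θ j) / (w i * w j) := by
    intro i j
    have h1 := (hw' i).ne'
    have h2 := (hw' j).ne'
    rw [← huw i j]
    field_simp
  have hsum := hf (fun i => u i / w i)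
  have hterm : ∀ i j, a i j * (Real.sin (θ i - θ j) * (u i / w i - u j / w j)) =
      a i j * (K * Real.sin (θ i - θ j) ^ 2 / (w i * w j)) := by
    intro i j
    rw [ht i j]; ring
  have hnn : ∀ i j, 0 ≤ a i j * (K * Real.sin (θ i - θ j) ^ 2 / (w i * w j)) := by
    intro i j
    have h1 := hw' i
    have h2 := hw' j
    rcases ha i j with h | h <;> rw [h]
    · simp
    · positivity
  have hz : ∀ i j, a i j * (K * Real.sin (θ i - θ j) ^ 2 / (w i * w j)) = 0 := by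
    have h1 : ∑ i, ∑ j, a i j * (K * Real.sin (θ i - θ j) ^ 2 / (w i * w j)) = 0 := by
      rw [← hsum]
      apply Finset.sum_congr rfl; intro i _
      apply Finset.sum_congr rfl; intro j _
      rw [← hterm i j]
    rw [Finset.sum_eq_zero_iff_of_nonneg (fun i _ => Finset.sum_nonneg (fun j _ => hnn i j))] at h1
    intro i j
    have h2 := h1 i (Finset.mem_univ i)
    rw [Finset.sum_eq_zero_iff_of_nonneg (fun j _ => hnn i j)] at h2
    exact h2 j (Finset.mem_univ j)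
  have hadj : ∀ i j, a i j = 1 → u i / w i = u j / w j := by
    intro i j hij
    have h1 := hz i j
    rw [hij, one_mul] at h1
    have h2 := hw' i
    have h3 := hw' j
    have h4 : K * Real.sin (θ i - θ j) ^ 2 = 0 := by
      rcases div_eq_zero_iff.mp h1 with h | h
      · exact h
      · have : 0 < w i * w j := by positivity
        linarith
    have h5 : Real.sin (θ i - θ j) = 0 := by
      rcases mul_eq_zero.mp h4 with h | h
      · linarith
      · exact pow_eq_zero_iff (two_ne_zero) |>.mp h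
    have h6 := ht i j
    rw [h5] at h6
    simp at h6
    linarith
  obtain ⟨j, hj1, hj2⟩ := common a ha κ hκ hdeg i₀ l₀
  have htt : u i₀ / w i₀ = u l₀ / w l₀ := by rw [hadj i₀ j hj1, hadj l₀ j hj2]
  have hsin : Real.sin (θ i₀ - θ l₀) = 0 := by
    have h1 := huw i₀ l₀
    have h2 := hw' i₀
    have h3 := hw' l₀
    have h4 : u i₀ * w l₀ = u l₀ * w i₀ := by
      rw [div_eq_div_iff h2.ne' h3.ne'] at htt
      exact htt
    rw [h4, sub_self] at h1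
    rcases mul_eq_zero.mp h1.symm with h | h
    · linarith
    · exact h
  have hcos : 0 < Real.cos (θ i₀ - θ l₀) := by
    have h2 := hw' i₀
    have h3 := hw' l₀
    have h4 : u i₀ * u l₀ = (u l₀ / w l₀) ^ 2 * (w i₀ * w l₀) := by
      have h5 : u i₀ = (u l₀ / w l₀) * w i₀ := by
        rw [← htt]; field_simp
      have h6 : u l₀ = (u l₀ / w l₀) * w l₀ := by
        field_simp
      calc u i₀ * u l₀ = ((u l₀ / w l₀) * w i₀) * ((u l₀ / w l₀) * w l₀) := by rw [← h5, ← h6]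
        _ = _ := by ring
    have h7 := huw2 i₀ l₀
    have h8 : 0 < K * Real.cos (θ i₀ - θ l₀) := by
      rw [← h7, h4]; positivity
    exact (pos_iff_pos_of_mul_pos h8).mp hKpos
  have h9 := Real.sin_sq_add_cos_sq (θ i₀ - θ l₀)
  rw [hsin] at h9
  nlinarith

lemma sumcos {n : ℕ} (f : Fin n → ℝ) : ∑ i, ∑ j, Real.cos (f i - f j) =
    (∑ i, Real.cos (f i)) ^ 2 + (∑ i, Real.sin (f i)) ^ 2 := by
  have h : ∀ i j, Real.cos (f i - f j) = Real.cos (f i) * Real.cos (f j) + Real.sin (f i) * Real.sin (f j) :=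
    fun i j => Real.cos_sub _ _
  simp_rw [h, Finset.sum_add_distrib, ← Finset.sum_mul_sum]
  ring

lemma sumcos_nonneg {n : ℕ} (f : Fin n → ℝ) : 0 ≤ ∑ i, ∑ j, Real.cos (f i - f j) := by
  rw [sumcos]; positivity

/-- double sum over all pairs of one -/
lemma sum_one {n : ℕ} : ∑ _i : Fin n, ∑ _j : Fin n, (1:ℝ) = (n:ℝ) ^ 2 := by
  simp [sq]

lemma step1 {n : ℕ} (a : Fin n → Fin n → ℝ) (θ : Fin n → ℝ)
    (hH : 0 ≤ ∑ i, ∑ j, a i j * (Real.cos (θ i - θ j) * (2 - 2 * Real.cos (θ i - θ j)))) :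
    (n:ℝ) ^ 2 + ∑ i, ∑ j, Real.cos (2 * θ i - 2 * θ j) - 2 * ∑ i, ∑ j, Real.cos (θ i - θ j) ≤
      ∑ i, ∑ j, (1 - a i j) * (2 * Real.cos (θ i - θ j) ^ 2 - 2 * Real.cos (θ i - θ j)) := by
  have h1 : ∑ i, ∑ j, (1 - a i j) * (2 * Real.cos (θ i - θ j) ^ 2 - 2 * Real.cos (θ i - θ j)) =
      ∑ i, ∑ j, a i j * (Real.cos (θ i - θ j) * (2 - 2 * Real.cos (θ i - θ j))) +
      (∑ _i : Fin n, ∑ _j : Fin n, (1:ℝ) + ∑ i, ∑ j, Real.cos (2 * θ i - 2 * θ j)
        - 2 * ∑ i, ∑ j, Real.cos (θ i - θ j)) := by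
    rw [Finset.mul_sum, ← Finset.sum_add_distrib, ← Finset.sum_sub_distrib, ← Finset.sum_add_distrib]
    apply Finset.sum_congr rfl; intro i _
    rw [Finset.mul_sum, ← Finset.sum_add_distrib, ← Finset.sum_sub_distrib, ← Finset.sum_add_distrib]
    apply Finset.sum_congr rfl; intro j _
    have : 2 * θ i - 2 * θ j = 2 * (θ i - θ j) := by ring
    rw [this, Real.cos_two_mul]
    ring
  rw [h1, sum_one]
  linarith

lemma step2 {n : ℕ} (a : Fin n → Fin n → ℝ) (ha : ∀ i j, a i j = 0 ∨ a i j = 1)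
    (θ : Fin n → ℝ) (κ : ℝ) 
    (hrow : ∀ i, ∑ j, a i j * Real.sin (θ i - θ j) = 0)
    (hdeg : ∀ i, ∑ j, (1 - a i j) ≤ κ * n) :
    ∑ i, (∑ j, Real.sin (θ i - θ j)) ^ 2 ≤ (κ * n) * ∑ i, ∑ j, (1 - a i j) * Real.sin (θ i - θ j) ^ 2 := by
  rw [Finset.mul_sum]
  apply Finset.sum_le_sum
  intro i _
  have h1 : ∑ j, Real.sin (θ i - θ j) = ∑ j, (1 - a i j) * ((1 - a i j) * Real.sin (θ i - θ j)) := by
    have h2 : ∑ j, Real.sin (θ i - θ j) = ∑ j, (1 - a i j) * Real.sin (θ i - θ j) + ∑ j, a i j * Real.sin (θ i - θ j) := by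
      rw [← Finset.sum_add_distrib]
      apply Finset.sum_congr rfl; intro j _; ring
    rw [h2, hrow i, add_zero]
    apply Finset.sum_congr rfl; intro j _
    rcases ha i j with h | h <;> rw [h] <;> ring
  rw [h1]
  refine le_trans (Finset.sum_mul_sq_le_sq_mul_sq _ _ _) ?_
  have h3 : ∑ j, (1 - a i j) ^ 2 = ∑ j, (1 - a i j) := by
    apply Finset.sum_congr rfl; intro j _
    rcases ha i j with h | h <;> rw [h] <;> ring
  have h4 : ∑ j, ((1 - a i j) * Real.sin (θ i - θ j)) ^ 2 = ∑ j, (1 - a i j) * Real.sin (θ i - θ j) ^ 2 := by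
    apply Finset.sum_congr rfl; intro j _
    rcases ha i j with h | h <;> rw [h] <;> ring
  rw [h3, h4]
  apply mul_le_mul_of_nonneg_right (hdeg i)
  apply Finset.sum_nonneg; intro j _
  rcases ha i j with h | h <;> rw [h]
  · simp; positivity
  · simp

lemma step3 {n : ℕ} (θ : Fin n → ℝ) :
    (n:ℝ) * (∑ i, ∑ j, Real.cos (θ i - θ j)) / 2 -
      (∑ i, ∑ j, Real.cos (θ i - θ j)) * √(∑ i, ∑ j, Real.cos (2 * θ i - 2 * θ j)) / 2 ≤
    ∑ i, (∑ j, Real.sin (θ i - θ j)) ^ 2 := by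
  rw [sumcos, sumcos (fun i => 2 * θ i)]
  set X := ∑ j, Real.cos (θ j) with hX
  set Y := ∑ j, Real.sin (θ j) with hY
  set X2 := ∑ j, Real.cos (2 * θ j) with hX2
  set Y2 := ∑ j, Real.sin (2 * θ j) with hY2
  have h1 : ∀ i, ∑ j, Real.sin (θ i - θ j) = Real.sin (θ i) * X - Real.cos (θ i) * Y := by
    intro i
    simp_rw [Real.sin_sub, Finset.sum_sub_distrib]
    rw [← Finset.mul_sum, ← Finset.mul_sum]
  have h2 : ∑ i, (∑ j, Real.sin (θ i - θ j)) ^ 2 =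
      (n:ℝ) * (X ^ 2 + Y ^ 2) / 2 - ((X ^ 2 - Y ^ 2) * X2 + 2 * X * Y * Y2) / 2 := by
    have h3 : ∀ i, (∑ j, Real.sin (θ i - θ j)) ^ 2 = (X ^ 2 + Y ^ 2) / 2 * 1
        - ((X ^ 2 - Y ^ 2) / 2 * Real.cos (2 * θ i) + X * Y * Real.sin (2 * θ i)) := by
      intro i
      rw [h1 i, Real.cos_two_mul, Real.sin_two_mul]
      have := Real.sin_sq_add_cos_sq (θ i)
      linear_combination (X ^ 2) * this
    rw [Finset.sum_congr rfl (fun i _ => h3 i), Finset.sum_sub_distrib, Finset.sum_add_distrib,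
      ← Finset.mul_sum, ← Finset.mul_sum, ← Finset.mul_sum, ← hX2, ← hY2]
    simp
    ring
  rw [h2]
  have h4 : (X ^ 2 - Y ^ 2) * X2 + 2 * X * Y * Y2 ≤ (X ^ 2 + Y ^ 2) * √(X2 ^ 2 + Y2 ^ 2) := by
    have h5 : ((X ^ 2 - Y ^ 2) * X2 + 2 * X * Y * Y2) ^ 2 ≤ ((X ^ 2 + Y ^ 2) * √(X2 ^ 2 + Y2 ^ 2)) ^ 2 := by
      rw [mul_pow, Real.sq_sqrt (by positivity)]
      nlinarith [sq_nonneg ((X ^ 2 - Y ^ 2) * Y2 - 2 * X * Y * X2)]
    exact abs_le_of_sq_le_sq' h5 (by positivity) |>.2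
  linarith

lemma step4 {n : ℕ} (a : Fin n → Fin n → ℝ) (ha : ∀ i j, a i j = 0 ∨ a i j = 1)
    (θ : Fin n → ℝ) :
    3 * ∑ i, ∑ j, (1 - a i j) * Real.sin (θ i - θ j) ^ 2 ≤ 4 * ∑ i, ∑ j, (1 - a i j) -
      ∑ i, ∑ j, (1 - a i j) * (2 * Real.cos (θ i - θ j) ^ 2 - 2 * Real.cos (θ i - θ j)) := by
  rw [Finset.mul_sum, Finset.mul_sum, ← Finset.sum_sub_distrib]
  apply Finset.sum_le_sum; intro i _
  rw [Finset.mul_sum, Finset.mul_sum, ← Finset.sum_sub_distrib]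
  apply Finset.sum_le_sum; intro j _
  have h1 := Real.sin_sq_add_cos_sq (θ i - θ j)
  have h2 : Real.sin (θ i - θ j) ^ 2 = 1 - Real.cos (θ i - θ j) ^ 2 := by linarith
  rw [h2]
  have hb : 0 ≤ 1 - a i j := by rcases ha i j with h | h <;> rw [h] <;> norm_num
  nlinarith [mul_nonneg hb (sq_nonneg (1 + Real.cos (θ i - θ j)))]

lemma cos_four (x : ℝ) : Real.cos (4 * x) = 8 * Real.cos x ^ 4 - 8 * Real.cos x ^ 2 + 1 := by
  have : 4 * x = 2 * (2 * x) := by ring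
  rw [this, Real.cos_two_mul, Real.cos_two_mul]; ring

lemma step5 {n : ℕ} (a : Fin n → Fin n → ℝ) (ha : ∀ i j, a i j = 0 ∨ a i j = 1)
    (θ : Fin n → ℝ) :
    2 * ∑ i, ∑ j, (1 - a i j) * (2 * Real.cos (θ i - θ j) ^ 2 - 2 * Real.cos (θ i - θ j))
      - 4 * ∑ i, ∑ j, (1 - a i j) ≤
    7 / 8 * (n:ℝ) ^ 2 - 3 / 2 * ∑ i, ∑ j, Real.cos (θ i - θ j) + ∑ i, ∑ j, Real.cos (2 * θ i - 2 * θ j)
      - 1 / 2 * ∑ i, ∑ j, Real.cos (3 * θ i - 3 * θ j) + 1 / 8 * ∑ i, ∑ j, Real.cos (4 * θ i - 4 * θ j) := by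
  rw [← sum_one]
  simp only [Finset.mul_sum, ← Finset.sum_sub_distrib, ← Finset.sum_add_distrib]
  apply Finset.sum_le_sum; intro i _
  apply Finset.sum_le_sum; intro j _
  have e2 : 2 * θ i - 2 * θ j = 2 * (θ i - θ j) := by ring
  have e3 : 3 * θ i - 3 * θ j = 3 * (θ i - θ j) := by ring
  have e4 : 4 * θ i - 4 * θ j = 4 * (θ i - θ j) := by ring
  rw [e2, e3, e4, Real.cos_two_mul, Real.cos_three_mul, cos_four]
  generalize Real.cos (θ i - θ j) = c
  rcases ha i j with h | h <;> rw [h]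
  · nlinarith [sq_nonneg (c ^ 2 - c - 2)]
  · nlinarith [sq_nonneg (c ^ 2 - c)]

lemma coarse_num {r q : ℝ} (hr0 : 0 ≤ r) (hq0 : 0 ≤ q) (hrk : r ≤ 1 / 4 + 1 / 10 ^ 8)
    (h8 : 3 / 2 * (r ^ 2 * (1 - q)) ≤ (1 / 4 + 1 / 10 ^ 8) * (4 / 10 ^ 8 - q ^ 2 + 2 * r ^ 2)) :
    r ^ 2 ≤ 3 / 2 / 10 ^ 8 ∧ q ^ 2 ≤ 9 / 10 ^ 8 := by
  have h9 : r ^ 2 * q ≤ (1 / 4 + 1 / 10 ^ 8) * (r * q) := by
    have : r ^ 2 * q = r * (r * q) := by ring
    rw [this]
    exact mul_le_mul_of_nonneg_right hrk (by positivity)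
  have h10 : r * q ≤ 1 / 3 * q ^ 2 + 3 / 4 * r ^ 2 := by
    have := sq_nonneg (2 * q - 3 * r)
    linarith
  constructor
  · linarith [sq_nonneg r, sq_nonneg q]
  · linarith [sq_nonneg r, sq_nonneg q]

theorem part3 {n : ℕ} (hn : 0 < n) (a : Fin n → Fin n → ℝ) (ha : ∀ i j, a i j = 0 ∨ a i j = 1)
    (θ : Fin n → ℝ)
    (hH : 0 ≤ ∑ i, ∑ j, a i j * (Real.cos (θ i - θ j) * (2 - 2 * Real.cos (θ i - θ j))))
    (hrow : ∀ i, ∑ j, a i j * Real.sin (θ i - θ j) = 0)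
    (hdeg : ∀ i, ∑ j, (1 - a i j) ≤ (1 / 4 + 1 / 10 ^ 8) * (n:ℝ))
    (hR : √(∑ i, ∑ j, Real.cos (θ i - θ j)) ≤ (1 / 4 + 1 / 10 ^ 8) * (n:ℝ)) :
    ∑ i, ∑ j, Real.cos (θ i - θ j) ≤ 3 / 2 / 10 ^ 8 * (n:ℝ) ^ 2 ∧
    ∑ i, ∑ j, Real.cos (2 * θ i - 2 * θ j) ≤ 9 / 10 ^ 8 * (n:ℝ) ^ 2 ∧
    (1 - 62 / 10 ^ 8) * (n:ℝ) ^ 2 ≤ ∑ i, ∑ j, Real.cos (4 * θ i - 4 * θ j) := by
  have hN : (0:ℝ) < n := by exact_mod_cast hn
  have h1 := step1 a θ hH
  have h2 := step2 a ha θ (1 / 4 + 1 / 10 ^ 8) hrow hdeg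
  have h3 := step3 θ
  have h4 := step4 a ha θ
  have h5 := step5 a ha θ
  have h6 : ∑ i, ∑ j, (1 - a i j) ≤ (1 / 4 + 1 / 10 ^ 8) * (n:ℝ) ^ 2 := by
    calc ∑ i, ∑ j, (1 - a i j) ≤ ∑ _i : Fin n, (1 / 4 + 1 / 10 ^ 8) * (n:ℝ) :=
          Finset.sum_le_sum (fun i _ => hdeg i)
      _ = _ := by simp; ring
  have hK3 := sumcos_nonneg (fun i => 3 * θ i)
  have hK1 := sumcos_nonneg θ
  have hK2 := sumcos_nonneg (fun i => 2 * θ i)
  set K1 := ∑ i, ∑ j, Real.cos (θ i - θ j)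
  set K2 := ∑ i, ∑ j, Real.cos (2 * θ i - 2 * θ j)
  set K3 := ∑ i, ∑ j, Real.cos (3 * θ i - 3 * θ j)
  set K4 := ∑ i, ∑ j, Real.cos (4 * θ i - 4 * θ j)
  set Bg := ∑ i, ∑ j, (1 - a i j) * (2 * Real.cos (θ i - θ j) ^ 2 - 2 * Real.cos (θ i - θ j))
  set Bs := ∑ i, ∑ j, (1 - a i j) * Real.sin (θ i - θ j) ^ 2
  set B := ∑ i, ∑ j, (1 - a i j)
  set I := ∑ i, (∑ j, Real.sin (θ i - θ j)) ^ 2
  set N := (n:ℝ)
  -- normalise
  obtain ⟨r, hr0, hr⟩ : ∃ r : ℝ, 0 ≤ r ∧ √K1 = r * N := ⟨√K1 / N, by positivity, by field_simp⟩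
  obtain ⟨q, hq0, hq⟩ : ∃ q : ℝ, 0 ≤ q ∧ √K2 = q * N := ⟨√K2 / N, by positivity, by field_simp⟩
  have hK1' : K1 = r ^ 2 * N ^ 2 := by
    rw [← Real.sq_sqrt hK1, hr]; ring
  have hK2' : K2 = q ^ 2 * N ^ 2 := by
    rw [← Real.sq_sqrt hK2, hq]; ring
  have hrk : r ≤ 1 / 4 + 1 / 10 ^ 8 := by
    rw [hr] at hR
    exact le_of_mul_le_mul_right hR hN
  have h7 : 3 / 2 * (r ^ 2 * (1 - q)) * N ^ 3 ≤ (1 / 4 + 1 / 10 ^ 8) * (4 / 10 ^ 8 - q ^ 2 + 2 * r ^ 2) * N ^ 3 := by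
    have e1 : 3 / 2 * (r ^ 2 * (1 - q)) * N ^ 3 = 3 * (N * K1 / 2 - K1 * √K2 / 2) := by
      rw [hK1', hq]; ring
    have e2 : 3 * I ≤ (1 / 4 + 1 / 10 ^ 8) * N * (3 * Bs) := by linarith
    have e3 : 3 * Bs ≤ (4 / 10 ^ 8 - q ^ 2 + 2 * r ^ 2) * N ^ 2 := by
      have : (4 / 10 ^ 8 - q ^ 2 + 2 * r ^ 2) * N ^ 2 = 4 * ((1 / 4 + 1 / 10 ^ 8) * N ^ 2) - (N ^ 2 + K2 - 2 * K1) := by
        rw [hK1', hK2']; ring
      rw [this]
      linarith
    have e4 : (1 / 4 + 1 / 10 ^ 8) * N * (3 * Bs) ≤ (1 / 4 + 1 / 10 ^ 8) * N * ((4 / 10 ^ 8 - q ^ 2 + 2 * r ^ 2) * N ^ 2) := by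
      apply mul_le_mul_of_nonneg_left e3; positivity
    rw [e1]
    linarith
  have h8 : 3 / 2 * (r ^ 2 * (1 - q)) ≤ (1 / 4 + 1 / 10 ^ 8) * (4 / 10 ^ 8 - q ^ 2 + 2 * r ^ 2) :=
    le_of_mul_le_mul_right h7 (by positivity)
  obtain ⟨h11, h12⟩ := coarse_num hr0 hq0 hrk h8
  have hN2 : 0 < N ^ 2 := by positivity
  refine ⟨?_, ?_, ?_⟩
  · rw [hK1']; exact mul_le_mul_of_nonneg_right h11 hN2.le
  · rw [hK2']; exact mul_le_mul_of_nonneg_right h12 hN2.le
  · have h13 : K1 ≤ 3 / 2 / 10 ^ 8 * N ^ 2 := by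
      rw [hK1']; exact mul_le_mul_of_nonneg_right h11 hN2.le
    linarith

/-- the four class vectors -/
def Cls (e f : ℝ) : Prop := (e = 1 ∧ f = 0) ∨ (e = 0 ∧ f = 1) ∨ (e = -1 ∧ f = 0) ∨ (e = 0 ∧ f = -1)

lemma decomp (θ : ℝ) : ∃ e f p q : ℝ, Cls e f ∧ p ^ 2 + q ^ 2 = 1 ∧ |q| ≤ p ∧
    Real.cos θ = e * p - f * q ∧ Real.sin θ = e * q + f * p := by
  have h := Real.sin_sq_add_cos_sq θ
  rcases le_total |Real.sin θ| |Real.cos θ| with h1 | h1
  · rcases le_total 0 (Real.cos θ) with h2 | h2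
    · refine ⟨1, 0, Real.cos θ, Real.sin θ, Or.inl ⟨rfl, rfl⟩, by linarith, ?_, by ring, by ring⟩
      rwa [abs_of_nonneg h2] at h1
    · refine ⟨-1, 0, -Real.cos θ, -Real.sin θ, Or.inr (Or.inr (Or.inl ⟨rfl, rfl⟩)), by nlinarith, ?_, by ring, by ring⟩
      rwa [abs_of_nonpos h2, ← abs_neg] at h1
  · rcases le_total 0 (Real.sin θ) with h2 | h2
    · refine ⟨0, 1, Real.sin θ, -Real.cos θ, Or.inr (Or.inl ⟨rfl, rfl⟩), by nlinarith, ?_, by ring, by ring⟩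
      rwa [abs_of_nonneg h2, ← abs_neg] at h1
    · refine ⟨0, -1, -Real.sin θ, Real.cos θ, Or.inr (Or.inr (Or.inr ⟨rfl, rfl⟩)), by nlinarith, ?_, by ring, by ring⟩
      rwa [abs_of_nonpos h2] at h1

lemma Cls.sq {e f : ℝ} (h : Cls e f) : e ^ 2 + f ^ 2 = 1 := by
  rcases h with ⟨h1, h2⟩ | ⟨h1, h2⟩ | ⟨h1, h2⟩ | ⟨h1, h2⟩ <;> rw [h1, h2] <;> norm_num

lemma Cls.mul {e f : ℝ} (h : Cls e f) : e * f = 0 := by
  rcases h with ⟨h1, h2⟩ | ⟨h1, h2⟩ | ⟨h1, h2⟩ | ⟨h1, h2⟩ <;> rw [h1, h2] <;> norm_num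

/-- product of two classes -/
lemma Cls.prod {e f e' f' : ℝ} (h : Cls e f) (h' : Cls e' f') : Cls (e * e' + f * f') (e * f' - f * e') := by
  rcases h with ⟨h1, h2⟩ | ⟨h1, h2⟩ | ⟨h1, h2⟩ | ⟨h1, h2⟩ <;>
  rcases h' with ⟨h3, h4⟩ | ⟨h3, h4⟩ | ⟨h3, h4⟩ | ⟨h3, h4⟩ <;> rw [h1, h2, h3, h4] <;> unfold Cls <;> norm_num

lemma p_pos {p q : ℝ} (h : p ^ 2 + q ^ 2 = 1) (hq : |q| ≤ p) : 12 / 17 < p := by
  have h0 : 0 ≤ p := le_trans (abs_nonneg q) hq
  have h1 : q ^ 2 ≤ p ^ 2 := by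
    rw [← sq_abs q]; exact pow_le_pow_left₀ (abs_nonneg q) hq 2
  by_contra hc
  push Not at hc
  nlinarith

lemma p_le {p q : ℝ} (h : p ^ 2 + q ^ 2 = 1) : p ≤ 1 := by nlinarith [sq_nonneg q, sq_nonneg (p - 1)]

lemma anti_poly {a b β : ℝ} (ha : 1 / 2 ≤ a) (hβ : 0 ≤ β) (hb : -β ≤ b) (hb2 : b ^ 2 = β ^ 2) (hab : β ≤ 1 - a) :
    0 ≤ 3 * a ^ 3 + 2 * a ^ 2 * b - a * b ^ 2 - a * b - b ^ 2 + 1 - 2 * a := by
  rw [hb2]
  have h1 : 0 ≤ a ^ 2 * (2 * a - 1) := by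
    have : 0 ≤ 2 * a - 1 := by linarith
    positivity
  have h2 : 0 ≤ (1 - a - β) * (a * (2 * a - 1)) := by
    apply mul_nonneg (by linarith); apply mul_nonneg (by linarith) (by linarith)
  have h3 : 0 ≤ (1 - a - β) * ((1 - a + β) * (1 + a)) := by
    apply mul_nonneg (by linarith); apply mul_nonneg (by linarith) (by linarith)
  have h4 : 0 ≤ (b + β) * (a * (2 * a - 1)) := by
    apply mul_nonneg (by linarith); apply mul_nonneg (by linarith) (by linarith)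
  have hb2' : a * b ^ 2 = a * β ^ 2 := by rw [hb2]
  nlinarith

lemma same_case {a cd sd D W H : ℝ} (ha : a = 0 ∨ a = 1) (hcs : cd ^ 2 + sd ^ 2 = 1) (_hcd0 : 0 ≤ cd)
    (hD : 0 ≤ D) (hW : 0 ≤ W) (hH : 0 ≤ H) :
    a * (cd * (2 - 2 * cd) + 2 * D) ≤
      ((1:ℝ) ^ 2 + 1) / 2 * (sd ^ 2 + 2 * D) - 2 * ((1 - (1:ℝ) ^ 2) * sd ^ 2)
      + 4 * (((1 - a) - ((1:ℝ) ^ 2 - 1) / 2) * W) + 4 * H := by
  rcases ha with ha | ha <;> rw [ha]
  · nlinarith [sq_nonneg sd]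
  · nlinarith [sq_nonneg (1 - cd)]

lemma cross_case {a sd X W H : ℝ} (ha : a = 0 ∨ a = 1) (hX : X ≤ 2 * H) (hsd : sd ^ 2 ≤ 2 * W)
    (hH : 0 ≤ H) (D : ℝ) :
    a * (-2 * sd ^ 2 + 2 * X) ≤
      ((0:ℝ) ^ 2 + 0) / 2 * (sd ^ 2 + 2 * D) - 2 * ((1 - (0:ℝ) ^ 2) * sd ^ 2)
      + 4 * (((1 - a) - ((0:ℝ) ^ 2 - 0) / 2) * W) + 4 * H := by
  rcases ha with ha | ha <;> rw [ha]
  · nlinarith [sq_nonneg sd]
  · nlinarith

lemma anti_case {a cd sd W H D : ℝ} (ha : a = 0 ∨ a = 1) 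
    (key : 2 * W ≤ cd + cd ^ 2 + D) (hH : 0 ≤ H) :
    a * (-cd * (2 - 2 * -cd) + 2 * -D) ≤
      ((-1:ℝ) ^ 2 + -1) / 2 * (sd ^ 2 + 2 * D) - 2 * ((1 - (-1:ℝ) ^ 2) * sd ^ 2)
      + 4 * (((1 - a) - ((-1:ℝ) ^ 2 - -1) / 2) * W) + 4 * H := by
  rcases ha with ha | ha <;> rw [ha]
  · nlinarith
  · nlinarith

lemma tt_bound {p q p' q' sd : ℝ} (hp : p ^ 2 + q ^ 2 = 1) (hq : |q| ≤ p) (hp' : p' ^ 2 + q' ^ 2 = 1)
    (hq' : |q'| ≤ p') (hsdle : |sd| ≤ |q| + |q'|) :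
    |sd * ((q / p) * (q' / p'))| ≤ 2 * (|q| * |q'| * (|q| + |q'|)) := by
  have hP := p_pos hp hq
  have hP' := p_pos hp' hq'
  have hp0 : 0 < p := by linarith
  have hp0' : 0 < p' := by linarith
  have e4 : |q / p| * |q' / p'| ≤ 2 * (|q| * |q'|) := by
    have e7 : |q| * |q'| / (p * p') ≤ 2 * (|q| * |q'|) := by
      rw [div_le_iff₀ (by positivity)]
      have hA : 1 / 2 ≤ p * p' := by
        have e2 : 1 / 2 ≤ p ^ 2 := by
          have : q ^ 2 ≤ p ^ 2 := by rw [← sq_abs q]; exact pow_le_pow_left₀ (abs_nonneg q) hq 2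
          linarith
        have e3 : 1 / 2 ≤ p' ^ 2 := by
          have : q' ^ 2 ≤ p' ^ 2 := by rw [← sq_abs q']; exact pow_le_pow_left₀ (abs_nonneg q') hq' 2
          linarith
        by_contra hcon
        push Not at hcon
        have e4 : (1 / 2) * (1 / 2) ≤ p ^ 2 * p' ^ 2 := mul_le_mul e2 e3 (by norm_num) (by positivity)
        nlinarith [mul_pos hp0 hp0']
      nlinarith [mul_nonneg (abs_nonneg q) (abs_nonneg q')]
    rw [abs_div, abs_div, abs_of_pos hp0, abs_of_pos hp0', div_mul_div_comm]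
    exact e7
  rw [abs_mul, abs_mul]
  have e8 : |sd| * (|q / p| * |q' / p'|) ≤ (|q| + |q'|) * (2 * (|q| * |q'|)) :=
    mul_le_mul hsdle e4 (by positivity) (by positivity)
  linarith

lemma anti_key {p q p' q' cd sd : ℝ} (hp : p ^ 2 + q ^ 2 = 1) (hq : |q| ≤ p) (hp' : p' ^ 2 + q' ^ 2 = 1)
    (hq' : |q'| ≤ p') (hcd : cd = p * p' + q * q') (hcs : cd ^ 2 + sd ^ 2 = 1) :
    2 * (q ^ 2 + q' ^ 2) ≤ cd + cd ^ 2 + sd ^ 2 / (p * p') := by
  have hP := p_pos hp hq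
  have hP' := p_pos hp' hq'
  have hp0 : 0 < p := by linarith
  have hp0' : 0 < p' := by linarith
  have hpp : 0 < p * p' := by positivity
  have hq2 : q ^ 2 + q' ^ 2 = 1 + (q * q') ^ 2 - (p * p') ^ 2 := by
    have : (p * p') ^ 2 = p ^ 2 * p' ^ 2 := by ring
    have e2 : p ^ 2 = 1 - q ^ 2 := by linarith
    have e3 : p' ^ 2 = 1 - q' ^ 2 := by linarith
    rw [this, e2, e3]; ring
  have hA : 1 / 2 ≤ p * p' := by
    have e2 : 1 / 2 ≤ p ^ 2 := by
      have : q ^ 2 ≤ p ^ 2 := by rw [← sq_abs q]; exact pow_le_pow_left₀ (abs_nonneg q) hq 2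
      linarith
    have e3 : 1 / 2 ≤ p' ^ 2 := by
      have : q' ^ 2 ≤ p' ^ 2 := by rw [← sq_abs q']; exact pow_le_pow_left₀ (abs_nonneg q') hq' 2
      linarith
    by_contra hcon
    push Not at hcon
    have e4 : (1 / 2) * (1 / 2) ≤ p ^ 2 * p' ^ 2 := mul_le_mul e2 e3 (by norm_num) (by positivity)
    nlinarith
  have hβ : |q| * |q'| ≤ 1 - p * p' := by
    have : (p * p' + |q| * |q'|) ≤ 1 := by
      nlinarith [sq_nonneg (p - p'), sq_nonneg (|q| - |q'|), sq_abs q, sq_abs q']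
    linarith
  have hpoly := anti_poly (a := p * p') (b := q * q') (β := |q| * |q'|) hA (by positivity)
    (by rw [← abs_mul]; exact neg_abs_le _) (by rw [← abs_mul, sq_abs]) hβ
  have e5 : (2 * (q ^ 2 + q' ^ 2) - (cd + cd ^ 2)) ≤ sd ^ 2 / (p * p') := by
    rw [le_div_iff₀ hpp]
    have e6 : sd ^ 2 = 1 - cd ^ 2 := by linarith
    rw [e6, hq2, hcd]
    clear hcd hcs e6 hq2 hβ hpp
    generalize p * p' = A at *
    generalize q * q' = B at *
    nlinarith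
  linarith

/-- the pair inequality -/
lemma pair_ineq {a e f p q e' f' p' q' : ℝ} (ha : a = 0 ∨ a = 1) (h : Cls e f) (h' : Cls e' f')
    (hp : p ^ 2 + q ^ 2 = 1) (hq : |q| ≤ p) (hp' : p' ^ 2 + q' ^ 2 = 1) (hq' : |q'| ≤ p')
    (c s : ℝ) (hc : c = (e * e' + f * f') * (p * p' + q * q') - (e * f' - f * e') * (p * q' - q * p'))
    (hs : s = (e * e' + f * f') * (p * q' - q * p') + (e * f' - f * e') * (p * p' + q * q')) :
    a * (c * (2 - 2 * c) + 2 * (s * (q' / p' - q / p))) ≤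
      ((e * e' + f * f') ^ 2 + (e * e' + f * f')) / 2 * ((p * q' - q * p') ^ 2 + 2 * ((p * q' - q * p') ^ 2 / (p * p')))
      - 2 * ((1 - (e * e' + f * f') ^ 2) * (p * q' - q * p') ^ 2)
      + 4 * (((1 - a) - ((e * e' + f * f') ^ 2 - (e * e' + f * f')) / 2) * (q ^ 2 + q' ^ 2))
      + 4 * (|q| * |q'| * (|q| + |q'|)) := by
  have hP := p_pos hp hq
  have hP' := p_pos hp' hq'
  have hp0 : 0 < p := by linarith
  have hp0' : 0 < p' := by linarith
  have hp1 := p_le hp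
  have hp1' := p_le hp'
  have hprod := Cls.prod h h'
  generalize hE : e * e' + f * f' = E at *
  generalize hF : e * f' - f * e' = F at *
  have ht : q' / p' - q / p = (p * q' - q * p') / (p * p') := by
    field_simp
  have hcs : (p * p' + q * q') ^ 2 + (p * q' - q * p') ^ 2 = 1 := by
    have : (p * p' + q * q') ^ 2 + (p * q' - q * p') ^ 2 = (p ^ 2 + q ^ 2) * (p' ^ 2 + q' ^ 2) := by ring
    rw [this, hp, hp']; norm_num
  have e1 : (p * p' + q * q') * ((p * q' - q * p') / (p * p')) =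
      (p * q' - q * p') + (p * q' - q * p') * ((q / p) * (q' / p')) := by
    field_simp
  have hcd0 : 0 ≤ p * p' + q * q' := by
    have h1 : -(q * q') ≤ |q| * |q'| := by rw [← abs_mul]; exact neg_le_abs _
    have h2 : |q| * |q'| ≤ p * p' := mul_le_mul hq hq' (abs_nonneg _) hp0.le
    linarith
  have hsdle : |p * q' - q * p'| ≤ |q| + |q'| := by
    have h1 : |p * q' - q * p'| ≤ |p * q'| + |q * p'| := abs_sub _ _
    have h2 : |p * q'| ≤ |q'| := by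
      rw [abs_mul, abs_of_pos hp0]; exact mul_le_of_le_one_left (abs_nonneg _) hp1
    have h3 : |q * p'| ≤ |q| := by
      rw [abs_mul, abs_of_pos hp0']; exact mul_le_of_le_one_right (abs_nonneg _) hp1'
    linarith
  have hkey := anti_key (sd := p * q' - q * p') hp hq hp' hq' rfl hcs
  have htt := tt_bound hp hq hp' hq' hsdle
  rw [ht]
  generalize p * p' + q * q' = cd at *
  generalize p * q' - q * p' = sd at *
  have hqq0 : 0 ≤ |q| * |q'| * (|q| + |q'|) := by positivity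
  have hqq1 : 0 ≤ q ^ 2 + q' ^ 2 := by positivity
  have hsd2 : sd ^ 2 ≤ 2 * (q ^ 2 + q' ^ 2) := by
    have h1 : sd ^ 2 ≤ (|q| + |q'|) ^ 2 := by
      rw [← sq_abs sd]; exact pow_le_pow_left₀ (abs_nonneg _) hsdle 2
    have h2 : (|q| + |q'|) ^ 2 ≤ 2 * (|q| ^ 2 + |q'| ^ 2) := by nlinarith [sq_nonneg (|q| - |q'|)]
    rw [sq_abs, sq_abs] at h2
    linarith
  have hsdd : 0 ≤ sd ^ 2 / (p * p') := by positivity
  rcases hprod with ⟨h1, h2⟩ | ⟨h1, h2⟩ | ⟨h1, h2⟩ | ⟨h1, h2⟩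
  · -- same
    have hc' : c = cd := by rw [hc, h1, h2]; ring
    have hs' : s = sd := by rw [hs, h1, h2]; ring
    rw [hc', hs', h1]
    have e1 : sd * (sd / (p * p')) = sd ^ 2 / (p * p') := by ring
    rw [e1]
    exact same_case ha hcs hcd0 hsdd hqq1 hqq0
  · -- cross +
    have hc' : c = -sd := by rw [hc, h1, h2]; ring
    have hs' : s = cd := by rw [hs, h1, h2]; ring
    rw [hc', hs', h1, e1]
    have e2 : sd * ((q / p) * (q' / p')) ≤ 2 * (|q| * |q'| * (|q| + |q'|)) :=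
      le_trans (le_abs_self _) htt
    have := cross_case ha e2 hsd2 hqq0 (sd ^ 2 / (p * p'))
    refine le_trans (le_of_eq ?_) this
    ring
  · -- anti
    have hc' : c = -cd := by rw [hc, h1, h2]; ring
    have hs' : s = -sd := by rw [hs, h1, h2]; ring
    rw [hc', hs', h1]
    have e1 : -sd * (sd / (p * p')) = -(sd ^ 2 / (p * p')) := by ring
    rw [e1]
    exact anti_case ha hkey hqq0
  · -- cross -
    have hc' : c = sd := by rw [hc, h1, h2]; ring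
    have hs' : s = -cd := by rw [hs, h1, h2]; ring
    rw [hc', hs', h1]
    have e3 : -cd * (sd / (p * p')) = -(sd + sd * ((q / p) * (q' / p'))) := by rw [← e1]; ring
    rw [e3]
    have e2 : -(sd * ((q / p) * (q' / p'))) ≤ 2 * (|q| * |q'| * (|q| + |q'|)) :=
      le_trans (neg_le_abs _) htt
    have := cross_case ha e2 hsd2 hqq0 (sd ^ 2 / (p * p'))
    refine le_trans (le_of_eq ?_) this
    ring

lemma sym_sum {n : ℕ} (M : Fin n → Fin n → ℝ) (hM : ∀ i j, M i j = M j i) (g : Fin n → ℝ) :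
    ∑ i, ∑ j, M i j * (g i + g j) = 2 * ∑ i, g i * ∑ j, M i j := by
  have h1 : ∑ i, ∑ j, M i j * (g i + g j) = ∑ i, ∑ j, M i j * g i + ∑ i, ∑ j, M i j * g j := by
    rw [← Finset.sum_add_distrib]
    apply Finset.sum_congr rfl; intro i _
    rw [← Finset.sum_add_distrib]
    apply Finset.sum_congr rfl; intro j _
    ring
  have h2 : ∑ i, ∑ j, M i j * g j = ∑ i, ∑ j, M i j * g i := by
    rw [Finset.sum_comm]
    apply Finset.sum_congr rfl; intro i _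
    apply Finset.sum_congr rfl; intro j _
    rw [hM j i]
  have h3 : ∑ i, g i * ∑ j, M i j = ∑ i, ∑ j, M i j * g i := by
    apply Finset.sum_congr rfl; intro i _
    rw [Finset.mul_sum]
    apply Finset.sum_congr rfl; intro j _
    ring
  rw [h1, h2, h3]; ring

lemma E_sq {e f e' f' : ℝ} (h : Cls e f) (h' : Cls e' f') :
    (e * e' + f * f') ^ 2 = (1 + (e ^ 2 - f ^ 2) * (e' ^ 2 - f' ^ 2)) / 2 := by
  have h1 := h.sq
  have h2 := h'.sq
  have h3 := h.mul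
  have h4 := h'.mul
  have e1 : (e * e' + f * f') ^ 2 = e ^ 2 * e' ^ 2 + f ^ 2 * f' ^ 2 + 2 * (e * f) * (e' * f') := by ring
  have e2 : e ^ 2 = 1 - f ^ 2 := by linarith
  have e3 : e' ^ 2 = 1 - f' ^ 2 := by linarith
  rw [e1, h3, e2, e3]; ring

/-- same-class indicator -/
noncomputable def sm (e f e' f' : ℝ) : ℝ := ((e * e' + f * f') ^ 2 + (e * e' + f * f')) / 2
/-- antipodal indicator -/
noncomputable def an (e f e' f' : ℝ) : ℝ := ((e * e' + f * f') ^ 2 - (e * e' + f * f')) / 2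
/-- cross indicator -/
noncomputable def cr (e f e' f' : ℝ) : ℝ := 1 - (e * e' + f * f') ^ 2

lemma sm_nonneg {e f e' f' : ℝ} (h : Cls e f) (h' : Cls e' f') : 0 ≤ sm e f e' f' := by
  rcases h.prod h' with ⟨h1, _⟩ | ⟨h1, _⟩ | ⟨h1, _⟩ | ⟨h1, _⟩ <;> unfold sm <;> rw [h1] <;> norm_num

lemma cr_nonneg {e f e' f' : ℝ} (h : Cls e f) (h' : Cls e' f') : 0 ≤ cr e f e' f' := by
  rcases h.prod h' with ⟨h1, _⟩ | ⟨h1, _⟩ | ⟨h1, _⟩ | ⟨h1, _⟩ <;> unfold cr <;> rw [h1] <;> norm_num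

lemma cr_le {e f e' f' : ℝ} : cr e f e' f' ≤ 1 := by
  unfold cr; nlinarith [sq_nonneg (e * e' + f * f')]

lemma sum_prod {n : ℕ} (u v : Fin n → ℝ) : ∑ i, ∑ j, u i * v j = (∑ i, u i) * (∑ j, v j) := by
  rw [Finset.sum_mul_sum]

lemma sm_psd {n : ℕ} (e f x : Fin n → ℝ) (hc : ∀ i, Cls (e i) (f i)) :
    0 ≤ ∑ i, ∑ j, sm (e i) (f i) (e j) (f j) * (x i * x j) := by
  have h : ∀ i j, sm (e i) (f i) (e j) (f j) * (x i * x j) =
      1 / 4 * (x i * x j) + 1 / 4 * (((e i ^ 2 - f i ^ 2) * x i) * ((e j ^ 2 - f j ^ 2) * x j))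
      + 1 / 2 * ((e i * x i) * (e j * x j)) + 1 / 2 * ((f i * x i) * (f j * x j)) := by
    intro i j
    unfold sm
    rw [E_sq (hc i) (hc j)]; ring
  simp_rw [h, Finset.sum_add_distrib, ← Finset.mul_sum, ← Finset.sum_mul]
  nlinarith [sq_nonneg (∑ i, x i), sq_nonneg (∑ i, (e i ^ 2 - f i ^ 2) * x i), sq_nonneg (∑ i, e i * x i),
    sq_nonneg (∑ i, f i * x i)]

lemma cr_form {n : ℕ} (e f x : Fin n → ℝ) (hc : ∀ i, Cls (e i) (f i)) :
    ∑ i, ∑ j, cr (e i) (f i) (e j) (f j) * (x i * x j) ≤ 1 / 2 * (∑ i, x i) ^ 2 := by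
  have h : ∀ i j, cr (e i) (f i) (e j) (f j) * (x i * x j) =
      1 / 2 * (x i * x j) - 1 / 2 * (((e i ^ 2 - f i ^ 2) * x i) * ((e j ^ 2 - f j ^ 2) * x j)) := by
    intro i j
    unfold cr
    rw [E_sq (hc i) (hc j)]; ring
  simp_rw [h, Finset.sum_sub_distrib, ← Finset.mul_sum, ← Finset.sum_mul]
  nlinarith [sq_nonneg (∑ i, x i), sq_nonneg (∑ i, (e i ^ 2 - f i ^ 2) * x i)]

lemma sm_symm (e f e' f' : ℝ) : sm e f e' f' = sm e' f' e f := by unfold sm; ring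
lemma an_symm (e f e' f' : ℝ) : an e f e' f' = an e' f' e f := by unfold an; ring
lemma cr_symm (e f e' f' : ℝ) : cr e f e' f' = cr e' f' e f := by unfold cr; ring

lemma T1 {n : ℕ} (e f p q : Fin n → ℝ) (hc : ∀ i, Cls (e i) (f i)) (hp : ∀ i, p i ^ 2 + q i ^ 2 = 1)
    (ns : ℝ) (hns : ∀ i, ∑ j, sm (e i) (f i) (e j) (f j) ≤ ns) :
    ∑ i, ∑ j, sm (e i) (f i) (e j) (f j) * (p i * q j - q i * p j) ^ 2 ≤ 2 * (ns * ∑ i, q i ^ 2) := by
  have h1 : ∀ i j, sm (e i) (f i) (e j) (f j) * (p i * q j - q i * p j) ^ 2 ≤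
      sm (e i) (f i) (e j) (f j) * (q i ^ 2 + q j ^ 2) - 2 * (sm (e i) (f i) (e j) (f j) * ((p i * q i) * (p j * q j))) := by
    intro i j
    have h2 := sm_nonneg (hc i) (hc j)
    have h3 : (p i * q j - q i * p j) ^ 2 ≤ (q i ^ 2 + q j ^ 2) - 2 * ((p i * q i) * (p j * q j)) := by
      have e1 : p i ^ 2 ≤ 1 := by nlinarith [hp i, sq_nonneg (q i)]
      have e2 : p j ^ 2 ≤ 1 := by nlinarith [hp j, sq_nonneg (q j)]
      nlinarith [mul_nonneg (sub_nonneg.mpr e1) (sq_nonneg (q j)), mul_nonneg (sub_nonneg.mpr e2) (sq_nonneg (q i))]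
    have := mul_le_mul_of_nonneg_left h3 h2
    linarith
  have h4 : ∑ i, ∑ j, sm (e i) (f i) (e j) (f j) * (p i * q j - q i * p j) ^ 2 ≤
      ∑ i, ∑ j, sm (e i) (f i) (e j) (f j) * (q i ^ 2 + q j ^ 2)
      - 2 * ∑ i, ∑ j, sm (e i) (f i) (e j) (f j) * ((p i * q i) * (p j * q j)) := by
    rw [Finset.mul_sum, ← Finset.sum_sub_distrib]
    apply Finset.sum_le_sum; intro i _
    rw [Finset.mul_sum, ← Finset.sum_sub_distrib]
    apply Finset.sum_le_sum; intro j _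
    exact h1 i j
  have h5 := sm_psd e f (fun i => p i * q i) hc
  have h6 := sym_sum (fun i j => sm (e i) (f i) (e j) (f j)) (fun i j => sm_symm _ _ _ _) (fun i => q i ^ 2)
  have h7 : ∑ i, q i ^ 2 * ∑ j, sm (e i) (f i) (e j) (f j) ≤ ns * ∑ i, q i ^ 2 := by
    rw [Finset.mul_sum]
    apply Finset.sum_le_sum; intro i _
    rw [mul_comm]
    exact mul_le_mul_of_nonneg_right (hns i) (sq_nonneg _)
  linarith

lemma T2 {n : ℕ} (e f p q : Fin n → ℝ) (hc : ∀ i, Cls (e i) (f i)) (hp : ∀ i, p i ^ 2 + q i ^ 2 = 1)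
    (hq : ∀ i, |q i| ≤ p i)
    (ns : ℝ) (hns : ∀ i, ∑ j, sm (e i) (f i) (e j) (f j) ≤ ns) :
    ∑ i, ∑ j, sm (e i) (f i) (e j) (f j) * ((p i * q j - q i * p j) ^ 2 / (p i * p j)) ≤ 17 / 6 * (ns * ∑ i, q i ^ 2) := by
  have h1 : ∀ i j, sm (e i) (f i) (e j) (f j) * ((p i * q j - q i * p j) ^ 2 / (p i * p j)) ≤
      17 / 12 * (sm (e i) (f i) (e j) (f j) * (q i ^ 2 + q j ^ 2)) - 2 * (sm (e i) (f i) (e j) (f j) * (q i * q j)) := by
    intro i j
    have h2 := sm_nonneg (hc i) (hc j)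
    have h3 : (p i * q j - q i * p j) ^ 2 / (p i * p j) ≤ 17 / 12 * (q i ^ 2 + q j ^ 2) - 2 * (q i * q j) := by
      have e1 := p_le (hp i)
      have e2 := p_le (hp j)
      have e3 := p_pos (hp i) (hq i)
      have e4 := p_pos (hp j) (hq j)
      have e5 : 0 < p i := by linarith
      have e6 : 0 < p j := by linarith
      rw [div_le_iff₀ (by positivity)]
      have e7 : 0 ≤ p i * q j ^ 2 * (17 / 12 * p j - p i) := by
        apply mul_nonneg (by positivity); linarith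
      have e8 : 0 ≤ p j * q i ^ 2 * (17 / 12 * p i - p j) := by
        apply mul_nonneg (by positivity); linarith
      nlinarith
    have := mul_le_mul_of_nonneg_left h3 h2
    linarith
  have h4 : ∑ i, ∑ j, sm (e i) (f i) (e j) (f j) * ((p i * q j - q i * p j) ^ 2 / (p i * p j)) ≤
      17 / 12 * ∑ i, ∑ j, sm (e i) (f i) (e j) (f j) * (q i ^ 2 + q j ^ 2)
      - 2 * ∑ i, ∑ j, sm (e i) (f i) (e j) (f j) * (q i * q j) := by
    rw [Finset.mul_sum, Finset.mul_sum, ← Finset.sum_sub_distrib]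
    apply Finset.sum_le_sum; intro i _
    rw [Finset.mul_sum, Finset.mul_sum, ← Finset.sum_sub_distrib]
    apply Finset.sum_le_sum; intro j _
    exact h1 i j
  have h5 := sm_psd e f q hc
  have h6 := sym_sum (fun i j => sm (e i) (f i) (e j) (f j)) (fun i j => sm_symm _ _ _ _) (fun i => q i ^ 2)
  have h7 : ∑ i, q i ^ 2 * ∑ j, sm (e i) (f i) (e j) (f j) ≤ ns * ∑ i, q i ^ 2 := by
    rw [Finset.mul_sum]
    apply Finset.sum_le_sum; intro i _
    rw [mul_comm]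
    exact mul_le_mul_of_nonneg_right (hns i) (sq_nonneg _)
  linarith

lemma T3 {n : ℕ} (e f p q : Fin n → ℝ) (hc : ∀ i, Cls (e i) (f i)) (hp : ∀ i, p i ^ 2 + q i ^ 2 = 1)
    (nc : ℝ) (hnc : ∀ i, nc ≤ ∑ j, cr (e i) (f i) (e j) (f j)) :
    2 * (nc * ∑ i, q i ^ 2) - 2 * (∑ i, q i ^ 2) ^ 2 - (∑ i, p i * q i) ^ 2 ≤
    ∑ i, ∑ j, cr (e i) (f i) (e j) (f j) * (p i * q j - q i * p j) ^ 2 := by
  have h1 : ∀ i j, cr (e i) (f i) (e j) (f j) * (q i ^ 2 + q j ^ 2) - 2 * (q i ^ 2 * q j ^ 2)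
      - 2 * (cr (e i) (f i) (e j) (f j) * ((p i * q i) * (p j * q j))) ≤ 
      cr (e i) (f i) (e j) (f j) * (p i * q j - q i * p j) ^ 2 := by
    intro i j
    have h2 := cr_nonneg (hc i) (hc j)
    have h2' := @cr_le (e i) (f i) (e j) (f j)
    have h3 : (p i * q j - q i * p j) ^ 2 = (q i ^ 2 + q j ^ 2) - 2 * (q i ^ 2 * q j ^ 2) - 2 * ((p i * q i) * (p j * q j)) := by
      have e1 : p i ^ 2 = 1 - q i ^ 2 := by linarith [hp i]
      have e2 : p j ^ 2 = 1 - q j ^ 2 := by linarith [hp j]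
      have e3 : (p i * q j - q i * p j) ^ 2 = p i ^ 2 * q j ^ 2 + q i ^ 2 * p j ^ 2 - 2 * ((p i * q i) * (p j * q j)) := by ring
      rw [e3, e1, e2]; ring
    rw [h3]
    have h4 : 0 ≤ (1 - cr (e i) (f i) (e j) (f j)) * (q i ^ 2 * q j ^ 2) := by
      apply mul_nonneg (by linarith) (by positivity)
    nlinarith
  have h4 : ∑ i, ∑ j, cr (e i) (f i) (e j) (f j) * (q i ^ 2 + q j ^ 2) - 2 * ∑ i, ∑ j, q i ^ 2 * q j ^ 2
      - 2 * ∑ i, ∑ j, cr (e i) (f i) (e j) (f j) * ((p i * q i) * (p j * q j)) ≤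
      ∑ i, ∑ j, cr (e i) (f i) (e j) (f j) * (p i * q j - q i * p j) ^ 2 := by
    rw [Finset.mul_sum, Finset.mul_sum, ← Finset.sum_sub_distrib, ← Finset.sum_sub_distrib]
    apply Finset.sum_le_sum; intro i _
    rw [Finset.mul_sum, Finset.mul_sum, ← Finset.sum_sub_distrib, ← Finset.sum_sub_distrib]
    apply Finset.sum_le_sum; intro j _
    exact h1 i j
  have h5 := cr_form e f (fun i => p i * q i) hc
  have h6 := sym_sum (fun i j => cr (e i) (f i) (e j) (f j)) (fun i j => cr_symm _ _ _ _) (fun i => q i ^ 2)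
  have h7 : nc * ∑ i, q i ^ 2 ≤ ∑ i, q i ^ 2 * ∑ j, cr (e i) (f i) (e j) (f j) := by
    rw [Finset.mul_sum]
    apply Finset.sum_le_sum; intro i _
    rw [mul_comm]
    exact mul_le_mul_of_nonneg_left (hnc i) (sq_nonneg _)
  have h8 := sum_prod (fun i => q i ^ 2) (fun i => q i ^ 2)
  rw [h8] at h4
  nlinarith

lemma T4 {n : ℕ} (a : Fin n → Fin n → ℝ) (hs : ∀ i j, a i j = a j i) (e f q : Fin n → ℝ)
    (k na : ℝ) (hdeg : ∀ i, ∑ j, (1 - a i j) ≤ k)
    (hna : ∀ i, na ≤ ∑ j, an (e i) (f i) (e j) (f j)) :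
    ∑ i, ∑ j, ((1 - a i j) - an (e i) (f i) (e j) (f j)) * (q i ^ 2 + q j ^ 2) ≤
      2 * ((k - na) * ∑ i, q i ^ 2) := by
  have h6 := sym_sum (fun i j => (1 - a i j) - an (e i) (f i) (e j) (f j))
    (fun i j => by rw [hs i j, an_symm]) (fun i => q i ^ 2)
  have h7 : ∑ i, q i ^ 2 * ∑ j, ((1 - a i j) - an (e i) (f i) (e j) (f j)) ≤ (k - na) * ∑ i, q i ^ 2 := by
    rw [Finset.mul_sum]
    apply Finset.sum_le_sum; intro i _
    rw [mul_comm, Finset.sum_sub_distrib]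
    exact mul_le_mul_of_nonneg_right (by linarith [hdeg i, hna i]) (sq_nonneg _)
  linarith

lemma T5 {n : ℕ} (q : Fin n → ℝ) :
    ∑ i, ∑ j, |q i| * |q j| * (|q i| + |q j|) = 2 * ((∑ i, q i ^ 2) * ∑ i, |q i|) := by
  have h : ∀ i j, |q i| * |q j| * (|q i| + |q j|) = q i ^ 2 * |q j| + |q i| * q j ^ 2 := by
    intro i j
    rw [← sq_abs (q i), ← sq_abs (q j)]; ring
  simp_rw [h, Finset.sum_add_distrib, sum_prod]
  ring

lemma lin_cls {e f x y B : ℝ} (h : Cls e f) (hx : |x| ≤ B) (hy : |y| ≤ B) : |e * x + f * y| ≤ B := by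
  rcases h with ⟨h1, h2⟩ | ⟨h1, h2⟩ | ⟨h1, h2⟩ | ⟨h1, h2⟩ <;> rw [h1, h2] <;> simp <;> assumption

lemma tau_cls {e f x B : ℝ} (h : Cls e f) (hx : |x| ≤ B) : |(e ^ 2 - f ^ 2) * x| ≤ B := by
  rcases h with ⟨h1, h2⟩ | ⟨h1, h2⟩ | ⟨h1, h2⟩ | ⟨h1, h2⟩ <;> rw [h1, h2] <;> simp <;> assumption

lemma cls_abs {e f : ℝ} (h : Cls e f) : |e| ≤ 1 ∧ |f| ≤ 1 := by
  rcases h with ⟨h1, h2⟩ | ⟨h1, h2⟩ | ⟨h1, h2⟩ | ⟨h1, h2⟩ <;> rw [h1, h2] <;> simp

lemma tau_sq {e f : ℝ} (h : Cls e f) : (e ^ 2 - f ^ 2) ^ 2 = 1 := by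
  rcases h with ⟨h1, h2⟩ | ⟨h1, h2⟩ | ⟨h1, h2⟩ | ⟨h1, h2⟩ <;> rw [h1, h2] <;> norm_num

lemma abs_sum_le' {n : ℕ} (g h : Fin n → ℝ) (H : ∀ i, |g i| ≤ h i) : |∑ i, g i| ≤ ∑ i, h i :=
  le_trans (Finset.abs_sum_le_sum_abs _ _) (Finset.sum_le_sum (fun i _ => H i))

lemma sum_sm {n : ℕ} (e f : Fin n → ℝ) (hc : ∀ i, Cls (e i) (f i)) (i : Fin n) :
    ∑ j, sm (e i) (f i) (e j) (f j) = (n:ℝ) / 4 + ((e i ^ 2 - f i ^ 2) * ∑ j, (e j ^ 2 - f j ^ 2)) / 4
      + (e i * ∑ j, e j + f i * ∑ j, f j) / 2 := by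
  have h : ∀ j, sm (e i) (f i) (e j) (f j) = 1 / 4 + ((e i ^ 2 - f i ^ 2) / 4) * (e j ^ 2 - f j ^ 2)
      + ((e i / 2) * e j + (f i / 2) * f j) := by
    intro j; unfold sm; rw [E_sq (hc i) (hc j)]; ring
  rw [Finset.sum_congr rfl (fun j _ => h j), Finset.sum_add_distrib, Finset.sum_add_distrib,
    Finset.sum_add_distrib, ← Finset.mul_sum, ← Finset.mul_sum, ← Finset.mul_sum]
  simp
  ring

lemma sum_an {n : ℕ} (e f : Fin n → ℝ) (hc : ∀ i, Cls (e i) (f i)) (i : Fin n) :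
    ∑ j, an (e i) (f i) (e j) (f j) = (n:ℝ) / 4 + ((e i ^ 2 - f i ^ 2) * ∑ j, (e j ^ 2 - f j ^ 2)) / 4
      - (e i * ∑ j, e j + f i * ∑ j, f j) / 2 := by
  have h : ∀ j, an (e i) (f i) (e j) (f j) = 1 / 4 + ((e i ^ 2 - f i ^ 2) / 4) * (e j ^ 2 - f j ^ 2)
      - ((e i / 2) * e j + (f i / 2) * f j) := by
    intro j; unfold an; rw [E_sq (hc i) (hc j)]; ring
  rw [Finset.sum_congr rfl (fun j _ => h j), Finset.sum_sub_distrib, Finset.sum_add_distrib,
    Finset.sum_add_distrib, ← Finset.mul_sum, ← Finset.mul_sum, ← Finset.mul_sum]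
  simp
  ring

lemma sum_cr {n : ℕ} (e f : Fin n → ℝ) (hc : ∀ i, Cls (e i) (f i)) (i : Fin n) :
    ∑ j, cr (e i) (f i) (e j) (f j) = (n:ℝ) / 2 - ((e i ^ 2 - f i ^ 2) * ∑ j, (e j ^ 2 - f j ^ 2)) / 2 := by
  have h : ∀ j, cr (e i) (f i) (e j) (f j) = 1 / 2 - ((e i ^ 2 - f i ^ 2) / 2) * (e j ^ 2 - f j ^ 2) := by
    intro j; unfold cr; rw [E_sq (hc i) (hc j)]; ring
  rw [Finset.sum_congr rfl (fun j _ => h j), Finset.sum_sub_distrib, ← Finset.mul_sum]
  simp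
  ring

lemma one_sub_le {p q : ℝ} (h : p ^ 2 + q ^ 2 = 1) (h1 : p ≤ 1) (h0 : 0 ≤ p) : 1 - p ≤ q ^ 2 := by
  nlinarith

lemma two_pq {p q : ℝ} (h : p ^ 2 + q ^ 2 = 1) : |2 * (p * q)| ≤ 1 := by
  rw [abs_le]
  constructor <;> nlinarith [sq_nonneg (p + q), sq_nonneg (p - q)]

lemma p_one {p : ℝ} (h : p ^ 2 + 0 ^ 2 = 1) (h0 : 0 ≤ p) : p = 1 := by
  nlinarith

lemma final_num {N Q L X A1 A2 A3 A4 A5 : ℝ} (hN : 0 < N) (hQ : 0 < Q) (hQN : Q ≤ 16 / 10 ^ 8 * N)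
    (hL : L ≤ 4 / 10 ^ 4 * N) (hX : X ^ 2 ≤ Q ^ 2)
    (h1 : A1 ≤ 2 * ((N / 4 + 3 * N / 4000) * Q)) (h2 : A2 ≤ 17 / 6 * ((N / 4 + 3 * N / 4000) * Q))
    (h3 : 2 * ((N / 2 - N / 2000) * Q) - 2 * Q ^ 2 - X ^ 2 ≤ A3)
    (h4 : A4 ≤ 2 * (((1 / 4 + 1 / 10 ^ 8) * N - (N / 4 - 3 * N / 4000)) * Q))
    (h5 : A5 = 2 * (Q * L)) (h : 0 ≤ A1 + 2 * A2 - 2 * A3 + 4 * A4 + 4 * A5) : False := by
  have e2 : Q * L ≤ Q * (4 / 10 ^ 4 * N) := mul_le_mul_of_nonneg_left hL hQ.le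
  have e3 : Q * Q ≤ Q * (16 / 10 ^ 8 * N) := mul_le_mul_of_nonneg_left hQN hQ.le
  have e4 : 0 < Q * N := by positivity
  linarith

theorem part4 {n : ℕ} (hn : 0 < n) (a : Fin n → Fin n → ℝ) (ha : ∀ i j, a i j = 0 ∨ a i j = 1)
    (hs : ∀ i j, a i j = a j i) (θ : Fin n → ℝ)
    (hH : 0 ≤ ∑ i, ∑ j, a i j * (Real.cos (θ i - θ j) * (2 - 2 * Real.cos (θ i - θ j))))
    (hf : ∀ v : Fin n → ℝ, ∑ i, ∑ j, a i j * (Real.sin (θ i - θ j) * (v i - v j)) = 0)
    (hdeg : ∀ i, ∑ j, (1 - a i j) ≤ (1 / 4 + 1 / 10 ^ 8) * (n:ℝ))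
    (hK1 : ∑ i, ∑ j, Real.cos (θ i - θ j) ≤ 3 / 2 / 10 ^ 8 * (n:ℝ) ^ 2)
    (hK2 : ∑ i, ∑ j, Real.cos (2 * θ i - 2 * θ j) ≤ 9 / 10 ^ 8 * (n:ℝ) ^ 2)
    (h4s : ∑ i, Real.sin (4 * θ i) = 0) (h4c : (1 - 62 / 10 ^ 8) * (n:ℝ) ≤ ∑ i, Real.cos (4 * θ i)) :
    ∃ e f : Fin n → ℝ, (∀ i, Cls (e i) (f i)) ∧ (∀ i, Real.cos (θ i) = e i ∧ Real.sin (θ i) = f i) ∧
      (∀ i j, a i j = 1 → Real.cos (θ i - θ j) ≠ -1) ∧
      |∑ i, e i| ≤ (n:ℝ) / 1000 ∧ |∑ i, f i| ≤ (n:ℝ) / 1000 ∧ |∑ i, (e i ^ 2 - f i ^ 2)| ≤ (n:ℝ) / 1000 := by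
  have hN : (0:ℝ) < n := by exact_mod_cast hn
  choose e f p q hcls hpq hqp hcos hsin using (fun i => decomp (θ i))
  -- basic facts
  have hp12 : ∀ i, 1 / 2 ≤ p i ^ 2 := by
    intro i
    have : q i ^ 2 ≤ p i ^ 2 := by
      rw [← sq_abs (q i)]; exact pow_le_pow_left₀ (abs_nonneg _) (hqp i) 2
    linarith [hpq i]
  have hp1 : ∀ i, p i ≤ 1 := fun i => p_le (hpq i)
  have hp0 : ∀ i, 0 ≤ p i := fun i => le_trans (abs_nonneg _) (hqp i)
  have h1p : ∀ i, 1 - p i ≤ q i ^ 2 := by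
    intro i
    exact one_sub_le (hpq i) (hp1 i) (hp0 i)
  have hCS : ∀ i, Real.cos (θ i) * Real.sin (θ i) = (e i ^ 2 - f i ^ 2) * (p i * q i) := by
    intro i
    rw [hcos i, hsin i]
    have := (hcls i).mul
    linear_combination (p i ^ 2 - q i ^ 2) * this
  have hC2 : ∀ i, Real.cos (2 * θ i) = (e i ^ 2 - f i ^ 2) * (1 - 2 * q i ^ 2) := by
    intro i
    have h1 := (hcls i).mul
    have h2 := hpq i
    have h3 : Real.cos (2 * θ i) = Real.cos (θ i) ^ 2 - Real.sin (θ i) ^ 2 := by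
      rw [Real.cos_two_mul]; linarith [Real.sin_sq_add_cos_sq (θ i)]
    rw [h3, hcos i, hsin i]
    have h4 : (e i * p i - f i * q i) ^ 2 - (e i * q i + f i * p i) ^ 2 =
      (e i ^ 2 - f i ^ 2) * (p i ^ 2 - q i ^ 2) - 4 * (e i * f i) * (p i * q i) := by ring
    rw [h4, h1]
    have h5 : p i ^ 2 = 1 - q i ^ 2 := by linarith
    rw [h5]; ring
  have hS4 : ∀ i, Real.sin (4 * θ i) = 4 * (p i * q i * (1 - 2 * q i ^ 2)) := by
    intro i
    have h1 : 4 * θ i = 2 * (2 * θ i) := by ring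
    have h2 := tau_sq (hcls i)
    rw [h1, Real.sin_two_mul, hC2 i, Real.sin_two_mul]
    have h3 : Real.sin (θ i) * Real.cos (θ i) = (e i ^ 2 - f i ^ 2) * (p i * q i) := by
      rw [mul_comm]; exact hCS i
    have h4 : 2 * (2 * Real.sin (θ i) * Real.cos (θ i)) * ((e i ^ 2 - f i ^ 2) * (1 - 2 * q i ^ 2)) =
      4 * (Real.sin (θ i) * Real.cos (θ i)) * ((e i ^ 2 - f i ^ 2) * (1 - 2 * q i ^ 2)) := by ring
    rw [h4, h3]
    linear_combination (4 * (p i * q i * (1 - 2 * q i ^ 2))) * h2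
  have hC4 : ∀ i, Real.cos (4 * θ i) = 1 - 8 * (p i ^ 2 * q i ^ 2) := by
    intro i
    have h1 : 4 * θ i = 2 * (2 * θ i) := by ring
    have h2 := tau_sq (hcls i)
    rw [h1, Real.cos_two_mul, hC2 i]
    have h5 : p i ^ 2 = 1 - q i ^ 2 := by linarith [hpq i]
    rw [h5]
    linear_combination (2 * (1 - 2 * q i ^ 2) ^ 2) * h2
  set Q := ∑ i, q i ^ 2 with hQ
  set L := ∑ i, |q i| with hL
  have hQ0 : 0 ≤ Q := Finset.sum_nonneg (fun i _ => sq_nonneg _)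
  have hL0 : 0 ≤ L := Finset.sum_nonneg (fun i _ => abs_nonneg _)
  have hQs : 4 * Q ≤ 62 / 10 ^ 8 * (n:ℝ) := by
    have h1 : ∑ i, Real.cos (4 * θ i) ≤ (n:ℝ) - 4 * Q := by
      have h2 : (n:ℝ) - 4 * Q = ∑ i, (1 - 4 * q i ^ 2) := by
        rw [Finset.sum_sub_distrib, ← Finset.mul_sum]; simp [hQ]
      rw [h2]
      apply Finset.sum_le_sum; intro i _
      rw [hC4 i]
      have h3 := mul_le_mul_of_nonneg_right (hp12 i) (sq_nonneg (q i))
      linarith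
    linarith
  have hLs : L ≤ 4 / 10 ^ 4 * (n:ℝ) := by
    have h1 : L ^ 2 ≤ (n:ℝ) * Q := by
      have := sq_sum_le_card_mul_sum_sq (s := (Finset.univ : Finset (Fin n))) (f := fun i => |q i|)
      simpa [hL, hQ] using this
    have h3 : (n:ℝ) * Q ≤ (n:ℝ) * (16 / 10 ^ 8 * (n:ℝ)) := mul_le_mul_of_nonneg_left (by linarith) hN.le
    have h2 : L ^ 2 ≤ (4 / 10 ^ 4 * (n:ℝ)) ^ 2 := by
      have h4 : (4 / 10 ^ 4 * (n:ℝ)) ^ 2 = (n:ℝ) * (16 / 10 ^ 8 * (n:ℝ)) := by ring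
      rw [h4]; exact le_trans h1 h3
    exact abs_le_of_sq_le_sq' h2 (by positivity) |>.2
  have hX : (∑ i, p i * q i) ^ 2 ≤ Q ^ 2 := by
    have h1 : ∑ i, p i * q i = ∑ i, 2 * (p i * q i) * q i ^ 2 := by
      have h2 : ∑ i, Real.sin (4 * θ i) = 4 * (∑ i, p i * q i - ∑ i, 2 * (p i * q i) * q i ^ 2) := by
        rw [← Finset.sum_sub_distrib, Finset.mul_sum]
        apply Finset.sum_congr rfl; intro i _
        rw [hS4 i]; ring
      rw [h4s] at h2
      linarith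
    have h3 : |∑ i, p i * q i| ≤ Q := by
      rw [h1]
      apply abs_sum_le'
      intro i
      rw [abs_mul, abs_of_nonneg (sq_nonneg (q i))]
      have h4 : |2 * (p i * q i)| ≤ 1 := two_pq (hpq i)
      exact mul_le_of_le_one_left (sq_nonneg _) h4
    rw [← sq_abs]
    exact pow_le_pow_left₀ (abs_nonneg _) h3 2
  have hKc := sumcos θ
  have hKc2 := sumcos (fun i => 2 * θ i)
  have hsC : |∑ i, Real.cos (θ i)| ≤ 13 / 10 ^ 5 * (n:ℝ) := by
    have h1 : (∑ i, Real.cos (θ i)) ^ 2 ≤ (13 / 10 ^ 5 * (n:ℝ)) ^ 2 := by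
      have h2 : (13 / 10 ^ 5 * (n:ℝ)) ^ 2 = 169 / 10 ^ 10 * (n:ℝ) ^ 2 := by ring
      rw [h2]
      linarith [sq_nonneg (∑ i, Real.sin (θ i)), sq_nonneg (n:ℝ)]
    exact abs_le_of_sq_le_sq h1 (by positivity)
  have hsS : |∑ i, Real.sin (θ i)| ≤ 13 / 10 ^ 5 * (n:ℝ) := by
    have h1 : (∑ i, Real.sin (θ i)) ^ 2 ≤ (13 / 10 ^ 5 * (n:ℝ)) ^ 2 := by
      have h2 : (13 / 10 ^ 5 * (n:ℝ)) ^ 2 = 169 / 10 ^ 10 * (n:ℝ) ^ 2 := by ring
      rw [h2]
      linarith [sq_nonneg (∑ i, Real.cos (θ i)), sq_nonneg (n:ℝ)]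
    exact abs_le_of_sq_le_sq h1 (by positivity)
  have hsC2 : |∑ i, Real.cos (2 * θ i)| ≤ 3 / 10 ^ 4 * (n:ℝ) := by
    have h1 : (∑ i, Real.cos (2 * θ i)) ^ 2 ≤ (3 / 10 ^ 4 * (n:ℝ)) ^ 2 := by
      have h2 : (3 / 10 ^ 4 * (n:ℝ)) ^ 2 = 9 / 10 ^ 8 * (n:ℝ) ^ 2 := by ring
      rw [h2]
      linarith [sq_nonneg (∑ i, Real.sin (2 * θ i)), sq_nonneg (n:ℝ)]
    exact abs_le_of_sq_le_sq h1 (by positivity)
  have hse : |∑ i, e i| ≤ (n:ℝ) / 1000 := by
    have h1 : ∑ i, e i = ∑ i, Real.cos (θ i) + ∑ i, (e i * (1 - p i) + f i * q i) := by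
      rw [← Finset.sum_add_distrib]
      apply Finset.sum_congr rfl; intro i _
      rw [hcos i]; ring
    have h2 : |∑ i, (e i * (1 - p i) + f i * q i)| ≤ ∑ i, (q i ^ 2 + |q i|) := by
      apply abs_sum_le'
      intro i
      have h3 := cls_abs (hcls i)
      have h4 : |e i * (1 - p i)| ≤ q i ^ 2 := by
        rw [abs_mul, abs_of_nonneg (by linarith [hp1 i] : 0 ≤ 1 - p i)]
        exact le_trans (mul_le_of_le_one_left (by linarith [hp1 i]) h3.1) (h1p i)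
      have h5 : |f i * q i| ≤ |q i| := by
        rw [abs_mul]; exact mul_le_of_le_one_left (abs_nonneg _) h3.2
      exact le_trans (abs_add_le _ _) (by linarith)
    have h2' : ∑ i, (q i ^ 2 + |q i|) = Q + L := by rw [Finset.sum_add_distrib]
    rw [h2'] at h2
    rw [h1]
    refine le_trans (abs_add_le _ _) ?_
    linarith
  have hsf : |∑ i, f i| ≤ (n:ℝ) / 1000 := by
    have h1 : ∑ i, f i = ∑ i, Real.sin (θ i) + ∑ i, (f i * (1 - p i) - e i * q i) := by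
      rw [← Finset.sum_add_distrib]
      apply Finset.sum_congr rfl; intro i _
      rw [hsin i]; ring
    have h2 : |∑ i, (f i * (1 - p i) - e i * q i)| ≤ ∑ i, (q i ^ 2 + |q i|) := by
      apply abs_sum_le'
      intro i
      have h3 := cls_abs (hcls i)
      have h4 : |f i * (1 - p i)| ≤ q i ^ 2 := by
        rw [abs_mul, abs_of_nonneg (by linarith [hp1 i] : 0 ≤ 1 - p i)]
        exact le_trans (mul_le_of_le_one_left (by linarith [hp1 i]) h3.2) (h1p i)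
      have h5 : |e i * q i| ≤ |q i| := by
        rw [abs_mul]; exact mul_le_of_le_one_left (abs_nonneg _) h3.1
      exact le_trans (abs_sub _ _) (by linarith)
    have h2' : ∑ i, (q i ^ 2 + |q i|) = Q + L := by rw [Finset.sum_add_distrib]
    rw [h2'] at h2
    rw [h1]
    refine le_trans (abs_add_le _ _) ?_
    linarith
  have hst : |∑ i, (e i ^ 2 - f i ^ 2)| ≤ (n:ℝ) / 1000 := by
    have h1 : ∑ i, (e i ^ 2 - f i ^ 2) = ∑ i, Real.cos (2 * θ i) + ∑ i, 2 * ((e i ^ 2 - f i ^ 2) * q i ^ 2) := by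
      rw [← Finset.sum_add_distrib]
      apply Finset.sum_congr rfl; intro i _
      rw [hC2 i]; ring
    have h2 : |∑ i, 2 * ((e i ^ 2 - f i ^ 2) * q i ^ 2)| ≤ ∑ i, 2 * q i ^ 2 := by
      apply abs_sum_le'
      intro i
      have h3 := tau_cls (x := q i ^ 2) (hcls i) (le_of_eq (abs_of_nonneg (sq_nonneg _)))
      rw [abs_mul, abs_two]
      linarith
    have h2' : ∑ i, 2 * q i ^ 2 = 2 * Q := by rw [← Finset.mul_sum]
    rw [h2'] at h2
    rw [h1]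
    refine le_trans (abs_add_le _ _) ?_
    linarith
  have hns : ∀ i, ∑ j, sm (e i) (f i) (e j) (f j) ≤ (n:ℝ) / 4 + 3 * (n:ℝ) / 4000 := by
    intro i
    rw [sum_sm e f hcls i]
    have h1 := (abs_le.mp (tau_cls (hcls i) hst)).2
    have h2 := (abs_le.mp (lin_cls (hcls i) hse hsf)).2
    linarith
  have hna : ∀ i, (n:ℝ) / 4 - 3 * (n:ℝ) / 4000 ≤ ∑ j, an (e i) (f i) (e j) (f j) := by
    intro i
    rw [sum_an e f hcls i]
    have h1 := (abs_le.mp (tau_cls (hcls i) hst)).1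
    have h2 := (abs_le.mp (lin_cls (hcls i) hse hsf)).2
    linarith
  have hnc : ∀ i, (n:ℝ) / 2 - (n:ℝ) / 2000 ≤ ∑ j, cr (e i) (f i) (e j) (f j) := by
    intro i
    rw [sum_cr e f hcls i]
    have h1 := (abs_le.mp (tau_cls (hcls i) hst)).2
    linarith
  have hT1 := T1 e f p q hcls hpq _ hns
  have hT2 := T2 e f p q hcls hpq hqp _ hns
  have hT3 := T3 e f p q hcls hpq _ hnc
  have hT4 := T4 a hs e f q _ _ hdeg hna
  have hT5 := T5 q
  rw [← hQ] at hT1 hT2 hT3 hT4 hT5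
  rw [← hL] at hT5
  -- the main inequality
  have hmain : 0 ≤ ∑ i, ∑ j, a i j * (Real.cos (θ j - θ i) * (2 - 2 * Real.cos (θ j - θ i)) +
      2 * (Real.sin (θ j - θ i) * (q j / p j - q i / p i))) := by
    have h1 : ∑ i, ∑ j, a i j * (Real.cos (θ j - θ i) * (2 - 2 * Real.cos (θ j - θ i)) +
      2 * (Real.sin (θ j - θ i) * (q j / p j - q i / p i))) =
      ∑ i, ∑ j, a i j * (Real.cos (θ i - θ j) * (2 - 2 * Real.cos (θ i - θ j))) +
      2 * ∑ i, ∑ j, a i j * (Real.sin (θ i - θ j) * (q i / p i - q j / p j)) := by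
      rw [Finset.mul_sum, ← Finset.sum_add_distrib]
      apply Finset.sum_congr rfl; intro i _
      rw [Finset.mul_sum, ← Finset.sum_add_distrib]
      apply Finset.sum_congr rfl; intro j _
      have e1 : Real.cos (θ j - θ i) = Real.cos (θ i - θ j) := by rw [← neg_sub, Real.cos_neg]
      have e2 : Real.sin (θ j - θ i) = - Real.sin (θ i - θ j) := by rw [← neg_sub, Real.sin_neg]
      rw [e1, e2]; ring
    rw [h1, hf (fun i => q i / p i)]
    simpa using hH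
  have hle : ∑ i, ∑ j, a i j * (Real.cos (θ j - θ i) * (2 - 2 * Real.cos (θ j - θ i)) +
      2 * (Real.sin (θ j - θ i) * (q j / p j - q i / p i))) ≤
      ∑ i, ∑ j, sm (e i) (f i) (e j) (f j) * (p i * q j - q i * p j) ^ 2
      + 2 * ∑ i, ∑ j, sm (e i) (f i) (e j) (f j) * ((p i * q j - q i * p j) ^ 2 / (p i * p j))
      - 2 * ∑ i, ∑ j, cr (e i) (f i) (e j) (f j) * (p i * q j - q i * p j) ^ 2
      + 4 * ∑ i, ∑ j, ((1 - a i j) - an (e i) (f i) (e j) (f j)) * (q i ^ 2 + q j ^ 2)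
      + 4 * ∑ i, ∑ j, |q i| * |q j| * (|q i| + |q j|) := by
    simp only [Finset.mul_sum, ← Finset.sum_sub_distrib, ← Finset.sum_add_distrib]
    apply Finset.sum_le_sum; intro i _
    apply Finset.sum_le_sum; intro j _
    have hc : Real.cos (θ j - θ i) = (e i * e j + f i * f j) * (p i * p j + q i * q j)
        - (e i * f j - f i * e j) * (p i * q j - q i * p j) := by
      rw [Real.cos_sub, hcos i, hcos j, hsin i, hsin j]; ring
    have hs' : Real.sin (θ j - θ i) = (e i * e j + f i * f j) * (p i * q j - q i * p j)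
        + (e i * f j - f i * e j) * (p i * p j + q i * q j) := by
      rw [Real.sin_sub, hcos i, hcos j, hsin i, hsin j]; ring
    have h1 := pair_ineq (ha i j) (hcls i) (hcls j) (hpq i) (hqp i) (hpq j) (hqp j) _ _ hc hs'
    refine le_trans h1 (le_of_eq ?_)
    unfold sm cr an
    ring
  have hQz : Q = 0 := by
    by_contra hne
    have hQp : 0 < Q := lt_of_le_of_ne hQ0 (Ne.symm hne)
    exact final_num hN hQp (by linarith) hLs hX hT1 hT2 hT3 hT4 hT5 (le_trans hmain hle)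
  have hq0 : ∀ i, q i = 0 := by
    have := (Finset.sum_eq_zero_iff_of_nonneg (fun i _ => sq_nonneg (q i))).mp hQz
    intro i
    exact pow_eq_zero_iff (two_ne_zero) |>.mp (this i (Finset.mem_univ i))
  have hp1' : ∀ i, p i = 1 := by
    intro i
    have h1 := hpq i
    rw [hq0 i] at h1
    exact p_one h1 (hp0 i)
  have hce : ∀ i, Real.cos (θ i) = e i := by intro i; rw [hcos i, hq0 i, hp1' i]; ring
  have hsf' : ∀ i, Real.sin (θ i) = f i := by intro i; rw [hsin i, hq0 i, hp1' i]; ring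
  refine ⟨e, f, hcls, fun i => ⟨hce i, hsf' i⟩, ?_, hse, hsf, hst⟩
  -- no antipodal adjacency
  have hterm : ∀ i j, a i j * (Real.cos (θ i - θ j) * (2 - 2 * Real.cos (θ i - θ j))) ≤ 0 := by
    intro i j
    have hc : Real.cos (θ i - θ j) = e i * e j + f i * f j := by
      rw [Real.cos_sub, hce i, hce j, hsf' i, hsf' j]
    have ha0 : 0 ≤ a i j := by rcases ha i j with h | h <;> rw [h]; norm_num
    rw [hc]
    rcases (hcls i).prod (hcls j) with ⟨h1, _⟩ | ⟨h1, _⟩ | ⟨h1, _⟩ | ⟨h1, _⟩ <;> rw [h1] <;> linarith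
  intro i j hij hcon
  have h1 : ∑ i, ∑ j, a i j * (Real.cos (θ i - θ j) * (2 - 2 * Real.cos (θ i - θ j))) < 0 := by
    apply Finset.sum_neg' (fun i _ => Finset.sum_nonpos (fun j _ => hterm i j)) ⟨i, Finset.mem_univ i, ?_⟩
    apply Finset.sum_neg' (fun j _ => hterm i j) ⟨j, Finset.mem_univ j, ?_⟩
    rw [hij, hcon]; norm_num
  linarith

/-- cubic direction -/
noncomputable def dir (e f : ℝ) : ℝ := f ^ 2 * (2 + f) + e ^ 2 * (1 - e)

/-- indicator of class zero against class one -/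
noncomputable def w01 (e f e' f' : ℝ) : ℝ :=
  (e ^ 2 + e) / 2 * ((f' ^ 2 + f') / 2) + (f ^ 2 + f) / 2 * ((e' ^ 2 + e') / 2)

lemma w01_nonneg {e f e' f' : ℝ} (h : Cls e f) (h' : Cls e' f') : 0 ≤ w01 e f e' f' := by
  rcases h with ⟨h1, h2⟩ | ⟨h1, h2⟩ | ⟨h1, h2⟩ | ⟨h1, h2⟩ <;>
  rcases h' with ⟨h3, h4⟩ | ⟨h3, h4⟩ | ⟨h3, h4⟩ | ⟨h3, h4⟩ <;>
  rw [h1, h2, h3, h4] <;> unfold w01 <;> norm_num

lemma dir_vals : dir 1 0 = 0 ∧ dir 0 1 = 3 ∧ dir (-1) 0 = 2 ∧ dir 0 (-1) = 1 := by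
  unfold dir; norm_num

lemma pair_cubic {a e f e' f' x s : ℝ} (h : Cls e f) (h' : Cls e' f')
    (hc : Real.cos x = e * e' + f * f') (hs : Real.sin x = f * e' - e * f')
    (ha : a = 0 ∨ a = 1) (hanti : a = 1 → Real.cos x ≠ -1) :
    a * (1 - Real.cos (x + s * (dir e f - dir e' f'))) =
      a * (1 - Real.cos x) + Real.sin s * (a * (Real.sin x * (dir e f - dir e' f')))
        - 4 * Real.sin s ^ 3 * (a * w01 e f e' f') := by
  rcases ha with ha | ha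
  · rw [ha]; ring
  have hanti' := hanti ha
  obtain ⟨d0, d1, d2, d3⟩ := dir_vals
  rw [ha, Real.cos_add, hs]
  rw [hc] at hanti' ⊢
  have h3 := Real.sin_three_mul s
  have f1 : s * (0 - 0) = 0 := by ring
  have f2 : s * (0 - 3) = -(3 * s) := by ring
  have f3 : s * (3 - 0) = 3 * s := by ring
  have f4 : s * (0 - 1) = -s := by ring
  have f5 : s * (1 - 0) = s := by ring
  have f6 : s * (3 - 2) = s := by ring
  have f7 : s * (2 - 3) = -s := by ring
  have f8 : s * (2 - 1) = s := by ring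
  have f9 : s * (1 - 2) = -s := by ring
  have f10 : s * (3 - 3) = 0 := by ring
  have f11 : s * (2 - 2) = 0 := by ring
  have f12 : s * (1 - 1) = 0 := by ring
  rcases h with ⟨h1, h2⟩ | ⟨h1, h2⟩ | ⟨h1, h2⟩ | ⟨h1, h2⟩ <;>
  rcases h' with ⟨h3, h4⟩ | ⟨h3, h4⟩ | ⟨h3, h4⟩ | ⟨h3, h4⟩ <;>
  rw [h1, h2, h3, h4] at hanti' ⊢ <;>
  first
  | (exfalso; norm_num at hanti'; done)
  | (simp only [d0, d1, d2, d3, f1, f2, f3, f4, f5, f6, f7, f8, f9, f10, f11, f12, Real.sin_neg,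
      Real.cos_neg, Real.sin_three_mul, Real.sin_zero, Real.cos_zero, w01]
     ring)

theorem part5 {n : ℕ} (hn : 0 < n) (a : Fin n → Fin n → ℝ) (ha : ∀ i j, a i j = 0 ∨ a i j = 1)
    (θ : Fin n → ℝ) (hmin : IsLocalMin (E a) θ)
    (hf : ∀ v : Fin n → ℝ, ∑ i, ∑ j, a i j * (Real.sin (θ i - θ j) * (v i - v j)) = 0)
    (hrow : ∀ i, ∑ j, a i j * Real.sin (θ i - θ j) = 0)
    (hdeg : ∀ i, ∑ j, (1 - a i j) ≤ (1 / 4 + 1 / 10 ^ 8) * (n:ℝ))
    (e f : Fin n → ℝ) (hcls : ∀ i, Cls (e i) (f i))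
    (hcs : ∀ i, Real.cos (θ i) = e i ∧ Real.sin (θ i) = f i)
    (hanti : ∀ i j, a i j = 1 → Real.cos (θ i - θ j) ≠ -1)
    (hse : |∑ i, e i| ≤ (n:ℝ) / 1000) (hsf : |∑ i, f i| ≤ (n:ℝ) / 1000)
    (hst : |∑ i, (e i ^ 2 - f i ^ 2)| ≤ (n:ℝ) / 1000) : False := by
  have hN : (0:ℝ) < n := by exact_mod_cast hn
  have hc : ∀ i j, Real.cos (θ i - θ j) = e i * e j + f i * f j := by
    intro i j; rw [Real.cos_sub, (hcs i).1, (hcs j).1, (hcs i).2, (hcs j).2]
  have hs : ∀ i j, Real.sin (θ i - θ j) = f i * e j - e i * f j := by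
    intro i j; rw [Real.sin_sub, (hcs i).1, (hcs j).1, (hcs i).2, (hcs j).2]
  set v : Fin n → ℝ := fun i => dir (e i) (f i) with hv
  set M := ∑ i, ∑ j, a i j * w01 (e i) (f i) (e j) (f j) with hM
  have hE : ∀ s : ℝ, E a (θ + s • v) = E a θ - 2 * Real.sin s ^ 3 * M := by
    intro s
    have h1 := hf v
    have h2 : ∀ i j, a i j * (1 - Real.cos ((θ + s • v) i - (θ + s • v) j)) =
        a i j * (1 - Real.cos (θ i - θ j)) + Real.sin s * (a i j * (Real.sin (θ i - θ j) * (v i - v j)))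
        - 4 * Real.sin s ^ 3 * (a i j * w01 (e i) (f i) (e j) (f j)) := by
      intro i j
      have e1 : (θ + s • v) i - (θ + s • v) j = (θ i - θ j) + s * (v i - v j) := by
        simp; ring
      rw [e1]
      exact pair_cubic (hcls i) (hcls j) (hc i j) (hs i j) (ha i j) (hanti i j)
    unfold E
    simp_rw [h2, Finset.sum_sub_distrib, Finset.sum_add_distrib, ← Finset.mul_sum]
    rw [h1, ← hM]; ring
  have hM0 : 0 ≤ M := by
    apply Finset.sum_nonneg; intro i _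
    apply Finset.sum_nonneg; intro j _
    have := w01_nonneg (hcls i) (hcls j)
    rcases ha i j with h | h <;> rw [h] <;> linarith
  have hM1 : M ≤ 0 := by
    have h1 := line_min a θ v hmin
    have h2 : ∀ᶠ s in nhds (0:ℝ), E a (θ + (0:ℝ) • v) ≤ E a (θ + s • v) := h1
    have h3 := h2.filter_mono (nhdsWithin_le_nhds (s := Set.Ioi 0))
    have h4 : ∀ᶠ s in nhdsWithin (0:ℝ) (Set.Ioi 0), s ∈ Set.Ioo (0:ℝ) 1 :=
      Ioo_mem_nhdsGT (by norm_num)
    obtain ⟨s, hs1, hs2⟩ := (h3.and h4).exists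
    rw [hE, hE] at hs1
    have h5 : 0 < Real.sin s := Real.sin_pos_of_pos_of_lt_pi hs2.1 (by linarith [Real.pi_gt_three, hs2.2])
    simp only [Real.sin_zero] at hs1
    have h6 : 0 < Real.sin s ^ 3 := by positivity
    nlinarith
  have hMz : M = 0 := le_antisymm hM1 hM0
  have hz : ∀ i j, a i j * w01 (e i) (f i) (e j) (f j) = 0 := by
    have hnn : ∀ i j, 0 ≤ a i j * w01 (e i) (f i) (e j) (f j) := by
      intro i j
      have := w01_nonneg (hcls i) (hcls j)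
      rcases ha i j with h | h <;> rw [h] <;> linarith
    have h1 := (Finset.sum_eq_zero_iff_of_nonneg (fun i _ => Finset.sum_nonneg (fun j _ => hnn i j))).mp hMz
    intro i j
    have h2 := h1 i (Finset.mem_univ i)
    exact (Finset.sum_eq_zero_iff_of_nonneg (fun j _ => hnn i j)).mp h2 j (Finset.mem_univ j)
  -- a vertex of class zero
  obtain ⟨i, hi⟩ : ∃ i, e i = 1 := by
    by_contra hcon
    push Not at hcon
    have h1 : ∑ j, (1 / 4 + (e j ^ 2 - f j ^ 2) / 4 + e j / 2) = 0 := by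
      apply Finset.sum_eq_zero; intro j _
      rcases hcls j with ⟨h1, h2⟩ | ⟨h1, h2⟩ | ⟨h1, h2⟩ | ⟨h1, h2⟩
      · exact absurd h1 (hcon j)
      all_goals rw [h1, h2]; norm_num
    rw [Finset.sum_add_distrib, Finset.sum_add_distrib, ← Finset.sum_div, ← Finset.sum_div,
      ← Finset.sum_div] at h1
    simp only [Finset.sum_const, Finset.card_univ, Fintype.card_fin, nsmul_eq_mul] at h1
    have h2 := (abs_le.mp hse).1
    have h3 := (abs_le.mp hst).1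
    linarith
  have hfi : f i = 0 := by
    rcases hcls i with ⟨h1, h2⟩ | ⟨h1, h2⟩ | ⟨h1, h2⟩ | ⟨h1, h2⟩ <;> rw [h1] at hi <;> first | exact h2 | norm_num at hi
  have hf1 : ∀ j, a i j = 1 → f j ≠ 1 := by
    intro j hij hfj
    have h1 := hz i j
    have he : e j = 0 := by have := (hcls j).mul; rw [hfj] at this; linarith
    rw [hij, hi, hfi, hfj, he] at h1
    unfold w01 at h1
    norm_num at h1
  have hf2 : ∀ j, a i j = 1 → f j = 0 := by
    have h1 := hrow i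
    have h2 : ∑ j, a i j * (- f j) = 0 := by
      rw [← h1]
      apply Finset.sum_congr rfl; intro j _
      rw [hs i j, hi, hfi]; ring
    have h3 : ∀ j, 0 ≤ a i j * (- f j) := by
      intro j
      rcases ha i j with h | h
      · rw [h]; simp
      · have := hf1 j h
        rw [h]
        rcases hcls j with ⟨_, h2⟩ | ⟨_, h2⟩ | ⟨_, h2⟩ | ⟨_, h2⟩
        · rw [h2]; simp
        · exact absurd h2 this
        · rw [h2]; simp
        · rw [h2]; norm_num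
    intro j hij
    have h4 := (Finset.sum_eq_zero_iff_of_nonneg (fun j _ => h3 j)).mp h2 j (Finset.mem_univ j)
    rw [hij] at h4
    linarith
  have hsm : ∀ j, a i j ≤ sm (e i) (f i) (e j) (f j) := by
    intro j
    rcases ha i j with h | h
    · rw [h]; exact sm_nonneg (hcls i) (hcls j)
    · rw [h]
      have h1 := hf2 j h
      have h2 := hanti i j h
      rw [hc i j, hi, hfi, h1] at h2
      rcases hcls j with ⟨h3, h4⟩ | ⟨h3, h4⟩ | ⟨h3, h4⟩ | ⟨h3, h4⟩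
      · rw [hi, hfi, h3, h4]; unfold sm; norm_num
      · rw [h1] at h4; norm_num at h4
      · rw [h3] at h2; norm_num at h2
      · rw [h1] at h4; norm_num at h4
  have h1 : ∑ j, a i j ≤ ∑ j, sm (e i) (f i) (e j) (f j) := Finset.sum_le_sum (fun j _ => hsm j)
  rw [sum_sm e f hcls i] at h1
  have h2 := (abs_le.mp (tau_cls (hcls i) hst)).2
  have h3 := (abs_le.mp (lin_cls (hcls i) hse hsf)).2
  have h4 := hdeg i
  rw [Finset.sum_sub_distrib] at h4
  simp only [Finset.sum_const, Finset.card_univ, Fintype.card_fin, nsmul_eq_mul, mul_one] at h4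
  linarith

lemma exists_angle (X Y : ℝ) : ∃ β : ℝ, X = √(X ^ 2 + Y ^ 2) * Real.cos β ∧ Y = √(X ^ 2 + Y ^ 2) * Real.sin β := by
  have hn : ‖(⟨X, Y⟩ : ℂ)‖ = √(X ^ 2 + Y ^ 2) := by
    simp [Complex.norm_def, Complex.normSq_apply, sq]
  refine ⟨Complex.arg ⟨X, Y⟩, ?_, ?_⟩
  · have h := Complex.norm_mul_cos_arg ⟨X, Y⟩
    rw [hn] at h
    exact h.symm
  · have h := Complex.norm_mul_sin_arg ⟨X, Y⟩
    rw [hn] at h
    exact h.symm

lemma E_shift {n : ℕ} (a : Fin n → Fin n → ℝ) (θ : Fin n → ℝ) (α : ℝ)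
    (hmin : IsLocalMin (E a) θ) : IsLocalMin (E a) (fun i => θ i - α) := by
  have hc : Continuous (fun x : Fin n → ℝ => fun i => x i + α) := by fun_prop
  have h1 : ∀ᶠ x in nhds ((fun x : Fin n → ℝ => fun i => x i + α) (fun i => θ i - α)), E a θ ≤ E a x := by
    have : (fun x : Fin n → ℝ => fun i => x i + α) (fun i => θ i - α) = θ := by
      funext i; simp
    rw [this]; exact hmin
  have h2 := hc.continuousAt.eventually h1
  have hE : ∀ x : Fin n → ℝ, E a (fun i => x i + α) = E a x := by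
    intro x
    unfold E
    have : ∀ i j, (x i + α) - (x j + α) = x i - x j := by intro i j; ring
    simp only [this]
  have hE' : E a (fun i => θ i - α) = E a θ := by
    rw [← hE (fun i => θ i - α)]
    simp
  show ∀ᶠ x in nhds (fun i => θ i - α), E a (fun i => θ i - α) ≤ E a x
  rw [hE']
  filter_upwards [h2] with x hx
  rwa [hE x] at hx

theorem core {n : ℕ} (a : Fin n → Fin n → ℝ) (ha : ∀ i j, a i j = 0 ∨ a i j = 1)
    (hs : ∀ i j, a i j = a j i) (hd : ∀ i, a i i = 1)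
    (hdeg : ∀ i, ∑ j, (1 - a i j) ≤ (1 / 4 + 1 / 10 ^ 8) * (n:ℝ))
    (θ : Fin n → ℝ) (hmin : IsLocalMin (E a) θ) : ∀ i j, Real.cos (θ i - θ j) = 1 := by
  rcases Nat.eq_zero_or_pos n with hn0 | hn
  · subst hn0; intro i; exact i.elim0
  have hN : (0:ℝ) < n := by exact_mod_cast hn
  have hf : ∀ v : Fin n → ℝ, ∑ i, ∑ j, a i j * (Real.sin (θ i - θ j) * (v i - v j)) = 0 :=
    fun v => first_order a θ v hmin
  have hf2 : ∀ v : Fin n → ℝ, 0 ≤ ∑ i, ∑ j, a i j * (Real.cos (θ i - θ j) * (v i - v j) ^ 2) :=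
    fun v => second_order a θ v hmin
  have hrow : ∀ i, ∑ j, a i j * Real.sin (θ i - θ j) = 0 := row_zero a hs θ hf
  have hr : ∀ i, 0 < ∑ j, a i j * Real.cos (θ i - θ j) := fun i =>
    lt_of_lt_of_le one_pos (row_pos a hs hd θ hf2 i)
  by_cases hR : (1 / 4 + 1 / 10 ^ 8) * (n:ℝ) < √((∑ j, Real.cos (θ j)) ^ 2 + (∑ j, Real.sin (θ j)) ^ 2)
  · exact part2 a ha θ hf hrow hr _ (by norm_num) hdeg hR
  exfalso
  push Not at hR
  rw [← sumcos] at hR
  have hH : 0 ≤ ∑ i, ∑ j, a i j * (Real.cos (θ i - θ j) * (2 - 2 * Real.cos (θ i - θ j))) := by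
    have h1 := hf2 (fun i => Real.cos (θ i))
    have h2 := hf2 (fun i => Real.sin (θ i))
    have h3 := add_nonneg h1 h2
    rw [← Finset.sum_add_distrib] at h3
    refine le_trans h3 (le_of_eq ?_)
    apply Finset.sum_congr rfl; intro i _
    rw [← Finset.sum_add_distrib]
    apply Finset.sum_congr rfl; intro j _
    have e1 := Real.sin_sq_add_cos_sq (θ i)
    have e2 := Real.sin_sq_add_cos_sq (θ j)
    have e3 : (Real.cos (θ i) - Real.cos (θ j)) ^ 2 + (Real.sin (θ i) - Real.sin (θ j)) ^ 2 =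
        2 - 2 * Real.cos (θ i - θ j) := by
      rw [Real.cos_sub]; linear_combination e1 + e2
    rw [← e3]; ring
  obtain ⟨hK1, hK2, hK4⟩ := part3 hn a ha θ hH hrow hdeg hR
  obtain ⟨β, hβ1, hβ2⟩ := exists_angle (∑ i, Real.cos (4 * θ i)) (∑ i, Real.sin (4 * θ i))
  set X4 := ∑ i, Real.cos (4 * θ i) with hX4
  set Y4 := ∑ i, Real.sin (4 * θ i) with hY4
  have hK4' := sumcos (fun i => 4 * θ i)
  rw [← hX4, ← hY4] at hK4'
  set ρ := √(X4 ^ 2 + Y4 ^ 2) with hρ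
  have hρ1 : (1 - 62 / 10 ^ 8) * (n:ℝ) ≤ ρ := by
    apply Real.le_sqrt_of_sq_le
    rw [← hK4']
    refine le_trans ?_ hK4
    nlinarith [hN]
  have h4 : ∀ i, 4 * (θ i - β / 4) = 4 * θ i - β := by intro i; ring
  have hdiff : ∀ i j, (θ i - β / 4) - (θ j - β / 4) = θ i - θ j := by intro i j; ring
  have hdiff2 : ∀ i j, 2 * (θ i - β / 4) - 2 * (θ j - β / 4) = 2 * θ i - 2 * θ j := by intro i j; ring
  have h4s : ∑ i, Real.sin (4 * (θ i - β / 4)) = 0 := by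
    simp_rw [h4, Real.sin_sub, Finset.sum_sub_distrib, ← Finset.sum_mul]
    rw [← hX4, ← hY4, hβ1, hβ2]; ring
  have h4c : (1 - 62 / 10 ^ 8) * (n:ℝ) ≤ ∑ i, Real.cos (4 * (θ i - β / 4)) := by
    simp_rw [h4, Real.cos_sub, Finset.sum_add_distrib, ← Finset.sum_mul]
    rw [← hX4, ← hY4]
    have e1 : X4 * Real.cos β + Y4 * Real.sin β = ρ := by
      have e2 : X4 * Real.cos β + Y4 * Real.sin β = ρ * (Real.sin β ^ 2 + Real.cos β ^ 2) := by
        rw [mul_add]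
        nth_rewrite 1 [hβ1]
        nth_rewrite 1 [hβ2]
        ring
      rw [e2, Real.sin_sq_add_cos_sq, mul_one]
    rw [e1]; exact hρ1
  have hmin' := E_shift a θ (β / 4) hmin
  obtain ⟨e, f, hcls, hcs, hanti, hse, hsf, hst⟩ := part4 hn a ha hs (fun i => θ i - β / 4)
    (by simpa only [hdiff] using hH) (by simpa only [hdiff] using hf) hdeg
    (by simpa only [hdiff] using hK1) (by simpa only [hdiff2] using hK2) h4s h4c
  exact part5 hn a ha (fun i => θ i - β / 4) hmin' (by simpa only [hdiff] using hf)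
    (by simpa only [hdiff] using hrow) hdeg e f hcls hcs hanti hse hsf hst

/-- There is a positive ε such that, for every n, every graph on n vertices with minimum degree at
least (3/4 - ε) n is globally synchronizing. -/
theorem result : ∃ ε : ℝ, 0 < ε ∧ ∀ (n : ℕ) (G : SimpleGraph (Fin n)) [DecidableRel G.Adj],
    (3 / 4 - ε) * (n : ℝ) ≤ (G.minDegree : ℝ) → GloballySynchronizing (G.adjMatrix ℝ) := by
  refine ⟨1 / 10 ^ 8, by norm_num, ?_⟩
  intro n G _ hG θ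
  constructor
  · intro hmin
    set x : Fin n → ℝ := fun i => (θ i).toReal with hx
    have hxθ : (fun i => ((x i : ℝ) : Real.Angle)) = θ := by
      funext i; simp [hx]
    set a : Fin n → Fin n → ℝ := fun i j => if i = j then 1 else G.adjMatrix ℝ i j with ha
    have ha01 : ∀ i j, a i j = 0 ∨ a i j = 1 := by
      intro i j
      simp only [ha, SimpleGraph.adjMatrix_apply]
      split_ifs <;> simp
    have hsym : ∀ i j, a i j = a j i := by
      intro i j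
      simp only [ha, SimpleGraph.adjMatrix_apply, G.adj_comm i j, eq_comm (a := i) (b := j)]
    have hdiag : ∀ i, a i i = 1 := by intro i; simp [ha]
    have hE : ∀ y : Fin n → ℝ, E a y = energy (G.adjMatrix ℝ) (fun i => ((y i : ℝ) : Real.Angle)) := by
      intro y
      unfold E energy
      congr 1
      apply Finset.sum_congr rfl; intro i _
      apply Finset.sum_congr rfl; intro j _
      rw [← Real.Angle.coe_sub, Real.Angle.cos_coe]
      by_cases hij : i = j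
      · subst hij; simp
      · simp [ha, hij]
    have hmin' : IsLocalMin (E a) x := by
      have hc : Continuous (fun y : Fin n → ℝ => fun i => ((y i : ℝ) : Real.Angle)) := by
        apply continuous_pi; intro i
        exact Real.Angle.continuous_coe.comp (continuous_apply i)
      have h1 : ∀ᶠ z in nhds ((fun y : Fin n → ℝ => fun i => ((y i : ℝ) : Real.Angle)) x),
          energy (G.adjMatrix ℝ) θ ≤ energy (G.adjMatrix ℝ) z := by
        simp only [hxθ]; exact hmin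
      have h2 := hc.continuousAt.eventually h1
      show ∀ᶠ z in nhds x, E a x ≤ E a z
      filter_upwards [h2] with z hz
      rw [hE, hE, hxθ]; exact hz
    have hdeg : ∀ i, ∑ j, (1 - a i j) ≤ (1 / 4 + 1 / 10 ^ 8) * (n:ℝ) := by
      intro i
      have h1 : (G.minDegree : ℝ) ≤ (G.degree i : ℝ) := by exact_mod_cast G.minDegree_le_degree i
      have h2 : (G.degree i : ℝ) ≤ ∑ j, a i j := by
        have h3 : (G.degree i : ℝ) = ∑ j, G.adjMatrix ℝ i j := by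
          simp [SimpleGraph.adjMatrix_apply, ← SimpleGraph.card_neighborFinset_eq_degree,
            SimpleGraph.neighborFinset_eq_filter]
        rw [h3]
        apply Finset.sum_le_sum; intro j _
        simp only [ha, SimpleGraph.adjMatrix_apply]
        split_ifs <;> norm_num
      rw [Finset.sum_sub_distrib]
      simp only [Finset.sum_const, Finset.card_univ, Fintype.card_fin, nsmul_eq_mul, mul_one]
      linarith
    have hcore := core a ha01 hsym hdiag hdeg x hmin'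
    have hall : ∀ i j, θ i = θ j := by
      intro i j
      obtain ⟨k, hk⟩ := (Real.cos_eq_one_iff _).mp (hcore i j)
      have h1 : ((x i : ℝ) : Real.Angle) = ((x j : ℝ) : Real.Angle) := by
        rw [Real.Angle.angle_eq_iff_two_pi_dvd_sub]
        exact ⟨k, by rw [← hk]; ring⟩
      have h2 := congrFun hxθ i
      have h3 := congrFun hxθ j
      rw [← h2, ← h3]
      exact h1
    rcases Nat.eq_zero_or_pos n with hn0 | hn
    · subst hn0; exact ⟨0, fun i => i.elim0⟩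
    · exact ⟨θ ⟨0, hn⟩, fun i => hall i ⟨0, hn⟩⟩
  · rintro ⟨c, hc⟩
    have h0 : energy (G.adjMatrix ℝ) θ = 0 := by
      unfold energy
      simp [hc]
    apply Filter.Eventually.of_forall
    intro z
    rw [h0]
    unfold energy
    apply mul_nonneg (by norm_num)
    apply Finset.sum_nonneg; intro i _
    apply Finset.sum_nonneg; intro j _
    apply mul_nonneg
    · simp only [SimpleGraph.adjMatrix_apply]; split_ifs <;> norm_num
    · have h2 : (z i - z j).cos ≤ 1 := by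
        rw [← Real.Angle.coe_toReal (z i - z j), Real.Angle.cos_coe]
        exact Real.cos_le_one _
      linarith

end Pool.Agent.Results.MP_2fe47b_co.Disproof
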